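import Pool.Agent.H.MP_2e716c_an.nb.Ang
import Pool.Agent.H.MP_2e716c_an.nb.LenA

/-! # Two close parallel lines which leave through different sides (MP_2e716c_an, sg) -/

open Set MeasureTheory Filter Topology

namespace Pool.Agent.MP2e716c.NB

noncomputable section

namespace CPoly

variable {n : ℕ} [NeZero n] (P : CPoly n)

/-- Consecutive sides turn to the left. -/
private theorem corner_pos (i : Fin n) : 0 < h (P.e i) (P.e (i + 1)) := by
  have h1 := P.ang_mem (i + 1)
  have h2 := P.e_ang (i + 1)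
  rw [add_sub_cancel_right] at h2
  have h3 : P.e i = -(P.e (i + 1) * E (P.ang (i + 1))) := by rw [← h2, neg_neg]
  have h4 : (P.e (i + 1)).re * (P.e (i + 1)).re + (P.e (i + 1)).im * (P.e (i + 1)).im = 1 := by
    have := ip_self (P.e (i + 1))
    rw [P.e_norm] at this
    simpa [ip] using this
  have h5 : h (P.e (i + 1) * E (P.ang (i + 1))) (P.e (i + 1)) = -Real.sin (P.ang (i + 1)) := by
    simp only [h, ip, Complex.mul_re, Complex.mul_im, Complex.I_re, Complex.I_im, E_re, E_im]
    linear_combination (-Real.sin (P.ang (i + 1))) * h4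
  rw [h3, h_neg_left, h5, neg_neg]
  exact Real.sin_pos_of_pos_of_lt_pi h1.1 h1.2

private theorem corner_min (f : Fin n → ℝ) (hf : ∀ i, 0 < f i) : ∃ k > 0, ∀ i, k ≤ f i := by
  obtain ⟨i0, h0⟩ := Finite.exists_min f
  exact ⟨f i0, hf i0, h0⟩

private theorem corner_side (u : ℂ) (i : Fin n) :
    P.len i * h u (P.e i) = h u (P.p (i + 1)) - h u (P.p i) := by
  rw [← h_rmul, ← P.side_eq, h_sub]

/-- Pluecker relation. -/
private theorem corner_pl (u x y z : ℂ) : h u x * h y z + h u z * h x y = h u y * h x z := by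
  simp only [h, ip, Complex.mul_re, Complex.mul_im, Complex.I_re, Complex.I_im]
  ring

private theorem corner_unit {u : ℂ} (hu : ‖u‖ = 1) (x y : ℂ) :
    h x y = ip u x * h u y - h u x * ip u y := by
  have h1 : u.re * u.re + u.im * u.im = 1 := by
    have := ip_self u
    rw [hu] at this
    simpa [ip] using this
  simp only [h, ip, Complex.mul_re, Complex.mul_im, Complex.I_re, Complex.I_im]
  linear_combination (x.im * y.re - x.re * y.im) * h1

private theorem corner_ip {x y : ℂ} (hx : ‖x‖ = 1) (hy : ‖y‖ = 1) : |ip x y| ≤ 1 := by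
  have h1 := abs_ip_le x y
  rwa [hx, hy, one_mul] at h1

private theorem corner_h {x y : ℂ} (hx : ‖x‖ = 1) (hy : ‖y‖ = 1) : |h x y| ≤ 1 :=
  corner_ip (by rw [norm_mul, Complex.norm_I, one_mul, hx]) hy

/-- Close parallel lines which leave through different sides leave through adjacent sides, on
different sides of the common vertex. -/
theorem corner : ∃ w > 0, ∀ (u : ℂ) (s s' : ℝ) (i j : Fin n), ‖u‖ = 1 →
    P.Exit i (u, s) → P.Exit j (u, s') → s < s' → s' < s + w → i ≠ j →
    i = j - 1 ∧ s < h u (P.p j) ∧ h u (P.p j) < s' ∧ ∃ φ ∈ Ioo 0 (P.ang j), u = -(P.e j * E φ) := by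
  obtain ⟨k, hk, hk'⟩ := corner_min _ P.corner_pos
  obtain ⟨l, hl, hl'⟩ := corner_min _ P.len_pos
  obtain ⟨d, hd, hd'⟩ : ∃ d > 0, d + d / k = k / 2 := by
    refine ⟨k ^ 2 / (2 * (k + 1)), by positivity, ?_⟩
    field_simp
  refine ⟨l * d, mul_pos hl hd, fun u s s' i j hu hi hj hs hs' hij => ?_⟩
  obtain ⟨i1, i2⟩ := hi
  obtain ⟨j1, j2⟩ := hj
  simp only at i1 i2 j1 j2
  have a1 : h u (P.p (i + 1)) ≤ s' := by
    by_contra hc
    push Not at hc
    have e1 : P.Exit i (u, s') := ⟨i1.trans hs, hc⟩
    exact hij (P.exit_unique e1 ⟨j1, j2⟩)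
  have key : i + 1 = j := by
    rcases lt_or_ge s' (h u (P.p (i + 1 + 1))) with hc | hc
    · obtain ⟨s'', c1, c2⟩ := exists_between (lt_min hc j2)
      have e1 : P.Exit (i + 1) (u, s'') := ⟨a1.trans_lt c1, c2.trans_le (min_le_left _ _)⟩
      have e2 : P.Exit j (u, s'') := ⟨j1.trans c1, c2.trans_le (min_le_right _ _)⟩
      exact P.exit_unique e1 e2
    · exfalso
      have b1 : h u (P.p (i + 1)) < h u (P.p (i + 1 + 1)) := by
        by_contra hcon
        push Not at hcon
        have e1 := P.loc_max (u := u) (m := i + 1)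
          (by rw [add_sub_cancel_right]; exact (i1.trans i2).le) hcon (j + 1)
        linarith
      have b2 : h u (P.p (i + 1 + 1)) < h u (P.p (i + 1 + 1 + 1)) := by
        by_contra hcon
        push Not at hcon
        have e1 := P.loc_max (u := u) (m := i + 1 + 1)
          (by rw [add_sub_cancel_right]; exact b1.le) hcon (j + 1)
        linarith
      have c1 := P.corner_side u i
      have c2 := P.corner_side u (i + 1)
      have c3 := P.corner_side u (i + 1 + 1)
      have x0 : 0 < h u (P.e i) := by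
        have e1 : 0 < P.len i * h u (P.e i) := by rw [c1]; linarith
        exact (mul_pos_iff_of_pos_left (P.len_pos i)).1 e1
      have y0 : 0 < h u (P.e (i + 1)) := by
        have e1 : 0 < P.len (i + 1) * h u (P.e (i + 1)) := by rw [c2]; linarith
        exact (mul_pos_iff_of_pos_left (P.len_pos (i + 1))).1 e1
      have z0 : 0 < h u (P.e (i + 1 + 1)) := by
        have e1 : 0 < P.len (i + 1 + 1) * h u (P.e (i + 1 + 1)) := by rw [c3]; linarith
        exact (mul_pos_iff_of_pos_left (P.len_pos (i + 1 + 1))).1 e1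
      have yd : h u (P.e (i + 1)) < d := by
        have e1 := mul_le_mul_of_nonneg_right (hl' (i + 1)) y0.le
        have e2 : l * h u (P.e (i + 1)) < l * d := by linarith
        exact lt_of_mul_lt_mul_left e2 hl.le
      have e1 := corner_pl u (P.e i) (P.e (i + 1)) (P.e (i + 1 + 1))
      have e2 := (abs_le.1 (corner_h (P.e_norm i) (P.e_norm (i + 1 + 1)))).2
      have e3 := mul_le_mul_of_nonneg_left (hk' (i + 1)) x0.le
      have e4 : 0 ≤ h u (P.e (i + 1 + 1)) * h (P.e i) (P.e (i + 1)) :=
        mul_nonneg z0.le (P.corner_pos i).le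
      have e5 := mul_le_mul_of_nonneg_left e2 y0.le
      have e6 : h u (P.e i) < d / k := by
        rw [lt_div_iff₀ hk]
        linarith
      have e7 := corner_unit hu (P.e i) (P.e (i + 1))
      have e8 := (abs_le.1 (corner_ip hu (P.e_norm i))).2
      have e9 := (abs_le.1 (corner_ip hu (P.e_norm (i + 1)))).1
      have e10 := mul_le_mul_of_nonneg_right e8 y0.le
      have e11 := mul_le_mul_of_nonneg_left e9 x0.le
      have e12 := hk' i
      linarith
  have hi' : i = j - 1 := eq_sub_of_add_eq key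
  rw [key] at i2
  refine ⟨hi', i2, j1, ?_⟩
  have hc : P.Cone j (-u) := by
    refine ⟨?_, ?_⟩
    · rw [h_neg_left, h_neg_left]
      linarith
    · rw [h_neg_left, h_neg_left, ← hi']
      linarith
  obtain ⟨φ, hφ, hφ'⟩ := P.angle_of_cone (by rw [norm_neg, hu]) hc
  exact ⟨φ, hφ, by rw [← hφ', neg_neg]⟩

end CPoly

end

end Pool.Agent.MP2e716c.NB
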