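import Pool.Agent.H.MP_2e716c_an.nb.Def

/-! # Angles modulo the reflections at a corner (MP_2e716c_an, folder `sg`: singular lines) -/

open Set MeasureTheory Filter Topology

namespace Pool.Agent.MP2e716c.NB

noncomputable section

/-- Distance of `x` to the integer multiples of `2 A`. -/
def fold (A x : ℝ) : ℝ := ‖((x : ℝ) : AddCircle (2 * A))‖

theorem fold_neg (A x : ℝ) : fold A (-x) = fold A x := by
  unfold fold
  rw [AddCircle.coe_neg, norm_neg]

theorem fold_add (A x : ℝ) (z : ℤ) : fold A (x + z * (2 * A)) = fold A x := by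
  unfold fold
  have h1 : ((x + z * (2 * A) : ℝ) : AddCircle (2 * A)) = ((x : ℝ) : AddCircle (2 * A)) := by
    rw [AddCircle.coe_add]
    have h2 : ((z * (2 * A) : ℝ) : AddCircle (2 * A)) = 0 := by
      rw [AddCircle.coe_eq_zero_iff]
      exact ⟨z, by simp⟩
    rw [h2, add_zero]
  rw [h1]

theorem fold_lip (A x y : ℝ) : |fold A x - fold A y| ≤ |x - y| := by
  unfold fold
  have h1 := abs_norm_sub_norm_le ((x : ℝ) : AddCircle (2 * A)) ((y : ℝ) : AddCircle (2 * A))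
  refine h1.trans ?_
  rw [← AddCircle.coe_sub]
  exact (QuotientAddGroup.norm_mk_le_norm).trans (le_of_eq (Real.norm_eq_abs _))

theorem fold_eq {A x : ℝ} (hA : 0 < A) (h : x ∈ Icc 0 A) : fold A x = x := by
  unfold fold
  have h1 : |x| ≤ |2 * A| / 2 := by
    rw [abs_of_nonneg h.1, abs_of_pos (by linarith)]
    linarith [h.2]
  rw [(AddCircle.norm_coe_eq_abs_iff (2 * A) (by linarith : (2 * A : ℝ) ≠ 0)).2 h1, abs_of_nonneg h.1]

theorem fold_mem {A : ℝ} (hA : 0 < A) (x : ℝ) : fold A x ∈ Icc 0 A := by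
  refine ⟨norm_nonneg _, ?_⟩
  have h1 := AddCircle.norm_le_half_period (2 * A) (x := ((x : ℝ) : AddCircle (2 * A)))
    (by linarith : (2 * A : ℝ) ≠ 0)
  rw [abs_of_pos (by linarith)] at h1
  unfold fold
  linarith

theorem fold_near {A x ε : ℝ} (hA : 0 < A) (hε : 0 ≤ ε) (h1 : -ε ≤ x) (h2 : x ≤ A + ε) :
    |fold A x - x| ≤ 2 * ε := by
  obtain ⟨y, hy, hxy⟩ : ∃ y ∈ Icc 0 A, |x - y| ≤ ε := by
    rcases le_total x 0 with h | h
    · exact ⟨0, ⟨le_rfl, hA.le⟩, by rw [sub_zero, abs_of_nonpos h]; linarith⟩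
    · rcases le_total x A with h' | h'
      · exact ⟨x, ⟨h, h'⟩, by rw [sub_self, abs_zero]; exact hε⟩
      · exact ⟨A, ⟨hA.le, le_rfl⟩, by rw [abs_of_nonneg (by linarith)]; linarith⟩
  have h3 := fold_lip A x y
  rw [fold_eq hA hy] at h3
  have h4 : fold A x - x = (fold A x - y) + (y - x) := by ring
  rw [h4]
  refine (abs_add_le _ _).trans ?_
  rw [abs_sub_comm y x]
  linarith

/-- Compactness: if for no `t` all three folded angles are limits, then this holds uniformly.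
`B ε φ` says that there is a trapped line which is `ε`-close to the ray of angle `φ`. -/
theorem fold_unif {A : ℝ} (hA : 0 < A) {B : ℝ → ℝ → Prop}
    (hmono : ∀ ε ε' φ φ', B ε φ → ε + |φ - φ'| ≤ ε' → B ε' φ')
    (h : ∀ t : ℝ, ∃ j ∈ ({-1, 0, 1} : Set ℝ), ∃ ε > 0, ¬ B ε (fold A (t + j * Real.pi))) :
    ∃ ε > 0, ∀ t : ℝ, ∃ j ∈ ({-1, 0, 1} : Set ℝ), ¬ B ε (fold A (t + j * Real.pi)) := by
  by_contra hcon
  push Not at hcon
  have h1 : ∀ N : ℕ, ∃ t ∈ Icc 0 (2 * A), ∀ j ∈ ({-1, 0, 1} : Set ℝ),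
      B (1 / ((N : ℝ) + 1)) (fold A (t + j * Real.pi)) := by
    intro N
    obtain ⟨t, ht⟩ := hcon (1 / ((N : ℝ) + 1)) (by positivity)
    have h2A : (0 : ℝ) < 2 * A := by linarith
    obtain ⟨z, hz⟩ : ∃ z : ℤ, z = ⌊t / (2 * A)⌋ := ⟨_, rfl⟩
    have e1 : (z : ℝ) ≤ t / (2 * A) := by rw [hz]; exact Int.floor_le _
    have e2 : t / (2 * A) < z + 1 := by rw [hz]; exact Int.lt_floor_add_one _
    rw [le_div_iff₀ h2A] at e1
    rw [div_lt_iff₀ h2A] at e2
    refine ⟨t - z * (2 * A), ⟨by linarith, by linarith⟩, fun j hj => ?_⟩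
    have e3 := fold_add A (t - z * (2 * A) + j * Real.pi) z
    have e4 : t - z * (2 * A) + j * Real.pi + z * (2 * A) = t + j * Real.pi := by ring
    rw [e4] at e3
    rw [← e3]
    exact ht j hj
  choose T hT hB using h1
  obtain ⟨t, -, ψ, hψ, hlim⟩ := isCompact_Icc.tendsto_subseq hT
  obtain ⟨j, hj, ε, hε, hnot⟩ := h t
  have h2 : Tendsto (fun N : ℕ => 1 / ((ψ N : ℝ) + 1) + |T (ψ N) - t|) atTop (𝓝 (0 + 0)) := by
    refine Tendsto.add ?_ ?_
    · exact tendsto_one_div_add_atTop_nhds_zero_nat.comp hψ.tendsto_atTop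
    · have h3 : Tendsto (fun N : ℕ => |(T ∘ ψ) N - t|) atTop (𝓝 |t - t|) :=
        (hlim.sub_const t).abs
      rwa [sub_self, abs_zero] at h3
  rw [add_zero] at h2
  obtain ⟨N, hN⟩ := (h2.eventually (gt_mem_nhds hε)).exists
  refine hnot (hmono _ _ _ _ (hB (ψ N) j hj) ?_)
  have h3 := fold_lip A (T (ψ N) + j * Real.pi) (t + j * Real.pi)
  rw [add_sub_add_right_eq_sub] at h3
  linarith

end

end Pool.Agent.MP2e716c.NB
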