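import Pool.Agent.H.MP_2e716c_an.sg.Fold

/-! # Three folded angles in a small interval (MP_2e716c_an, sg) -/

open Set MeasureTheory Filter Topology

namespace Pool.Agent.MP2e716c.NB

noncomputable section

/-- `fold A x` is `x` or `-x` modulo `2 A`. -/
theorem fold_rep {A : ℝ} (hA : 0 < A) (x : ℝ) :
    ∃ z : ℤ, fold A x = x + z * (2 * A) ∨ fold A x = -x + z * (2 * A) := by
  have h : fold A x = |x - round ((2 * A)⁻¹ * x) * (2 * A)| := AddCircle.norm_eq (2 * A)
  rcases abs_choice (x - round ((2 * A)⁻¹ * x) * (2 * A)) with h1 | h1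
  · exact ⟨-round ((2 * A)⁻¹ * x), Or.inl (by rw [h, h1]; push_cast; ring)⟩
  · exact ⟨round ((2 * A)⁻¹ * x), Or.inr (by rw [h, h1]; ring)⟩

theorem fold_le_abs (A x : ℝ) : fold A x ≤ |x| := by
  have h1 := fold_lip A x 0
  have h2 : fold A 0 = 0 := by simp [fold]
  rw [h2, sub_zero, sub_zero] at h1
  exact (le_abs_self _).trans h1

private theorem Small_key {A d x : ℝ} (z : ℤ)
    (h : x = d + z * (2 * A) ∨ x = -d + z * (2 * A)) : fold A d ≤ |x| := by
  rcases h with h | h
  · rw [← fold_add A d z, ← h]
    exact fold_le_abs A x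
  · rw [← fold_neg, ← fold_add A (-d) z, ← h]
    exact fold_le_abs A x

/-- If the three angles `t`, `t + π`, `t - π` folded modulo `2 A` are `a`, `b`, `c` then
`|b - a|` or `|c - a|` is at least the distance of `π` to `2 A ℤ`, or `|b - c|` is at least the
distance of `2 π` to `2 A ℤ`. -/
theorem fold_three {A : ℝ} (hA : 0 < A) (t : ℝ) :
    fold A Real.pi ≤ |fold A (t + Real.pi) - fold A t| ∨
      fold A Real.pi ≤ |fold A (t - Real.pi) - fold A t| ∨
      fold A (2 * Real.pi) ≤ |fold A (t + Real.pi) - fold A (t - Real.pi)| := by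
  obtain ⟨za, ha⟩ := fold_rep hA t
  obtain ⟨zb, hb⟩ := fold_rep hA (t + Real.pi)
  obtain ⟨zc, hc⟩ := fold_rep hA (t - Real.pi)
  rcases ha with ha | ha <;> rcases hb with hb | hb
  · left
    refine Small_key (zb - za) (Or.inl ?_)
    rw [hb, ha]
    push_cast
    ring
  · right
    rcases hc with hc | hc
    · left
      refine Small_key (zc - za) (Or.inr ?_)
      rw [hc, ha]
      push_cast
      ring
    · right
      refine Small_key (zb - zc) (Or.inr ?_)
      rw [hb, hc]
      push_cast
      ring
  · right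
    rcases hc with hc | hc
    · right
      refine Small_key (zb - zc) (Or.inl ?_)
      rw [hb, hc]
      push_cast
      ring
    · left
      refine Small_key (zc - za) (Or.inl ?_)
      rw [hc, ha]
      push_cast
      ring
  · left
    refine Small_key (zb - za) (Or.inr ?_)
    rw [hb, ha]
    push_cast
    ring

end

end Pool.Agent.MP2e716c.NB
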