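import Pool.Agent.H.MP_2e716c_an.sg.TSeen
import Pool.Agent.H.MP_2e716c_an.sg.Small
import Pool.Agent.H.MP_2e716c_an.Final

/-! # Hyperbolicity without totally trapped corner lines (MP_2e716c_an, sg) -/

open Set MeasureTheory Filter Topology

namespace Pool.Agent.MP2e716c

noncomputable section

namespace SemiDisp

variable {n : ℕ} [NeZero n] (T : SemiDisp n)

/-- Every nonempty set of neutral sides is unloaded, rational, separated, or (for convex polygons without
straight corners) has no totally trapped corner line. -/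
theorem hyperbolic_of_sets' (h : ∀ S : Set (Fin n), S.Nonempty → Disjoint S T.disp →
    T.P.Unloaded S ∨ T.P.Rational S ∨ T.Y.Separated S ∨ (Convex ℝ T.P.region ∧
      (∀ i, deriv (T.P.γ (i + 1)) 0 ≠ deriv (T.P.γ i) 0) ∧ ¬ T.Y.TotallyTrapped S)) :
    T.Y.Hyperbolic := by
  refine T.Y.hyperbolic_of_frequently T.disp ?_ T.curved ?_
  · intro i r hr
    by_cases hi : i ∈ T.disp
    · exact (T.curved i hi r hr).le
    · rw [T.curv_neutral hi]
  · refine T.Y.ae_frequently T.disp ?_
    intro S hne hS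
    rcases h S hne hS with hu | hr | hsep | ⟨h1, h2, h3⟩
    · refine T.Y.AS_null_of_unloaded ?_ (T.unloaded_Y hS hu)
      intro i hi
      have hi' : i ∉ T.disp := fun h' => (Set.disjoint_left.1 hS hi) h'
      rw [(T.neutral i hi').2]
      exact T.straight i
    · exact T.AS_null_of_rational hS hr
    · exact T.AS_null_of_separated hS hsep
    · exact T.AS_null_of_not_totallyTrapped h1 h2 hS h3

/-- Convex polygon without straight corners: at each corner `m` of two neutral sides, with angle `A`,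
all points of the other neutral sides are seen within an angle smaller than the distances of `π` and
`2 π` to the multiples of `2 A`. -/
theorem hyperbolic_of_small (hconv : Convex ℝ T.P.region)
    (hcorner : ∀ i, deriv (T.P.γ (i + 1)) 0 ≠ deriv (T.P.γ i) 0)
    (h : ∀ m, m - 1 ∉ T.disp → m ∉ T.disp → ∀ φ ∈ T.P.seen T.dispᶜ m, ∀ ψ ∈ T.P.seen T.dispᶜ m,
      |φ - ψ| < ‖((Real.pi : ℝ) : AddCircle (2 * T.P.cornerAngle m))‖ ∧
      |φ - ψ| < ‖((2 * Real.pi : ℝ) : AddCircle (2 * T.P.cornerAngle m))‖) : T.Y.Hyperbolic := by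
  refine T.hyperbolic_of_sets' fun S _ hS => Or.inr (Or.inr (Or.inr ⟨hconv, hcorner, ?_⟩))
  refine T.not_totallyTrapped hconv hcorner hS fun m hm hm' t => ?_
  by_contra hcon
  push Not at hcon
  have hsub : T.P.seen S m ⊆ T.P.seen T.dispᶜ m := by
    rintro φ ⟨d, hd, h1⟩
    exact ⟨d, fun h' => Set.disjoint_left.1 hS hd h', h1⟩
  have hA : 0 < T.P.cornerAngle m := by
    rw [T.cornerAngle_eq hconv hcorner m]
    exact ((T.P.poly T.straight hconv hcorner).ang_mem m).1
  have hmd : m - 1 ∉ T.disp := fun h' => Set.disjoint_left.1 hS hm h'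
  have hmd' : m ∉ T.disp := fun h' => Set.disjoint_left.1 hS hm' h'
  have a0 : NB.fold (T.P.cornerAngle m) t ∈ T.P.seen T.dispᶜ m := by
    have h1 := hsub (hcon 0 (by simp))
    rwa [zero_mul, add_zero] at h1
  have a1 : NB.fold (T.P.cornerAngle m) (t + Real.pi) ∈ T.P.seen T.dispᶜ m := by
    have h1 := hsub (hcon 1 (by simp))
    rwa [one_mul] at h1
  have a2 : NB.fold (T.P.cornerAngle m) (t - Real.pi) ∈ T.P.seen T.dispᶜ m := by
    have h1 := hsub (hcon (-1) (by simp))
    rwa [neg_one_mul, ← sub_eq_add_neg] at h1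
  rcases NB.fold_three hA t with h1 | h1 | h1
  · exact absurd (h m hmd hmd' _ a1 _ a0).1 (not_lt.2 h1)
  · exact absurd (h m hmd hmd' _ a2 _ a0).1 (not_lt.2 h1)
  · exact absurd (h m hmd hmd' _ a1 _ a2).2 (not_lt.2 h1)

end SemiDisp

end

end Pool.Agent.MP2e716c
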