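import Pool.Agent.H.MP_2e716c_an.nb.StripX

/-! # No strips for almost every direction (MP_2e716c_an, sg) -/

open Set MeasureTheory Filter Topology

namespace Pool.Agent.MP2e716c.NB

noncomputable section

namespace CPoly

variable {n : ℕ} [NeZero n] (P : CPoly n)

private theorem noStrip_not (b : Bool) (k : ℕ) : sb (!b) k = !(sb b k) := by
  induction k with
  | zero => rfl
  | succ k ih => rw [sb, sb, ih]

/-- A point of a side, in terms of the two vertices. -/
private theorem noStrip_pt (i : Fin n) (q : ℝ) :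
    P.p i + (q : ℂ) * P.e i = P.p i + ((q / P.len i : ℝ) : ℂ) * (P.p (i + 1) - P.p i) := by
  have h1 : (P.len i : ℂ) ≠ 0 := by exact_mod_cast (P.len_pos i).ne'
  rw [P.side_eq]
  push_cast
  rw [← mul_assoc, div_mul_cancel₀ _ h1]

private theorem noStrip_dist (i : Fin n) {q : ℝ} (h0 : 0 < q) (h1 : q < P.len i) (b : Fin n) :
    ‖P.p b - (P.p i + (q : ℂ) * P.e i)‖ ≤ P.maxLen := by
  have hl := P.len_pos i
  obtain ⟨t, ht⟩ : ∃ t, t = q / P.len i := ⟨_, rfl⟩
  have ht0 : 0 < t := by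
    rw [ht]
    exact div_pos h0 hl
  have ht1 : t < 1 := by
    rw [ht, div_lt_one hl]
    exact h1
  rw [P.noStrip_pt, ← ht]
  have e1 : P.p b - (P.p i + (t : ℂ) * (P.p (i + 1) - P.p i)) =
      ((1 - t : ℝ) : ℂ) * (P.p b - P.p i) + (t : ℂ) * (P.p b - P.p (i + 1)) := by
    push_cast
    ring
  rw [e1]
  refine (norm_add_le _ _).trans ?_
  rw [norm_mul, norm_mul, Complex.norm_real, Complex.norm_real, Real.norm_eq_abs,
    Real.norm_eq_abs, abs_of_pos ht0, abs_of_pos (by linarith : 0 < 1 - t)]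
  have h2 := mul_le_mul_of_nonneg_left (P.dist_vertex b i) (by linarith : 0 ≤ 1 - t)
  have h3 := mul_le_mul_of_nonneg_left (P.dist_vertex b (i + 1)) ht0.le
  linarith

/-- For almost every direction no two parallel lines which enter through one side have the same
infinite code. -/
theorem ae_no_strip : ∀ᵐ θ : ℝ, ∀ (i : Fin n) (s s' : ℝ), 0 < s → s < s' → s' < P.len i →
    h (E θ) (P.e i) < 0 → ∀ c : ℕ → Fin n,
    (∀ k, P.Exit (c k) (P.st c k (thr (P.p i + s * P.e i) (E θ)))) →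
    ¬ ∀ k, P.Exit (c k) (P.st c k (thr (P.p i + s' * P.e i) (E θ))) := by
  have hnull : ∀ᵐ θ : ℝ, ∀ (i : Fin n) (q : ℚ) (N : ℕ), (0 : ℝ) < q → (q : ℝ) < P.len i →
      θ ∉ P.Sset (P.p i + ((q : ℝ) : ℂ) * P.e i) true (1 / ((N : ℝ) + 1)) := by
    rw [ae_all_iff]
    intro i
    rw [ae_all_iff]
    intro q
    rw [ae_all_iff]
    intro N
    by_cases hq : (0 : ℝ) < q ∧ (q : ℝ) < P.len i
    · have h1 := P.Sset_null (P.noStrip_dist i hq.1 hq.2) true (g := 1 / ((N : ℝ) + 1))
        (by positivity)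
      filter_upwards [measure_eq_zero_iff_ae_notMem.1 h1] with θ hθ _ _
      exact hθ
    · filter_upwards with θ h0 h1
      exact absurd ⟨h0, h1⟩ hq
  filter_upwards [hnull] with θ hS i s s' hs hss hs' hκ c hc hc'
  obtain ⟨q, hq1, hq2⟩ := exists_rat_btwn hss
  obtain ⟨κ, hκd⟩ : ∃ κ, κ = h (E θ) (P.e i) := ⟨_, rfl⟩
  rw [← hκd] at hκ
  obtain ⟨X, hX⟩ : ∃ X : ℂ, X = P.p i + ((q : ℝ) : ℂ) * P.e i := ⟨_, rfl⟩
  have hx2 : h (E θ) X = h (E θ) (P.p i) + q * κ := by
    rw [hX, h_add, h_rmul, ← hκd]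
  -- the two lines beside the line through `X`
  have hL1 : thr (P.p i + (s : ℂ) * P.e i) (E θ) = off true ((q - s) * (-κ)) (thr X (E θ)) := by
    apply Prod.ext
    · rfl
    · show h (E θ) (P.p i + (s : ℂ) * P.e i) = h (E θ) X + sv true * ((q - s) * (-κ))
      rw [hx2, h_add, h_rmul, ← hκd]
      simp only [sv, if_true]
      ring
  have hL2 : thr (P.p i + (s' : ℂ) * P.e i) (E θ) =
      off false ((s' - q) * (-κ)) (thr X (E θ)) := by
    apply Prod.ext
    · rfl
    · show h (E θ) (P.p i + (s' : ℂ) * P.e i) = h (E θ) X + sv false * ((s' - q) * (-κ))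
      rw [hx2, h_add, h_rmul, ← hκd]
      simp only [sv, if_false, Bool.false_eq_true]
      ring
  have hd1 : 0 < ((q : ℝ) - s) * (-κ) := mul_pos (by linarith) (by linarith)
  have hd2 : 0 < (s' - (q : ℝ)) * (-κ) := mul_pos (by linarith) (by linarith)
  have hg1 : ∀ k, ((q : ℝ) - s) * (-κ) < P.gap (sb true k) (c k) (P.st c k (thr X (E θ))) := by
    intro k
    have h1 := hc k
    rw [hL1, P.st_off, P.exit_off] at h1
    exact h1.1
  have hg2 : ∀ k, (s' - (q : ℝ)) * (-κ) <
      P.gap (!(sb true k)) (c k) (P.st c k (thr X (E θ))) := by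
    intro k
    have h1 := hc' k
    rw [hL2, P.st_off, P.exit_off] at h1
    have h2 := h1.1
    have e1 : sb false k = !(sb true k) := noStrip_not true k
    rw [e1] at h2
    exact h2
  have hex : ∀ k, P.Exit (c k) (P.st c k (thr X (E θ))) := fun k =>
    (P.exit_gap (sb true k)).2 ⟨hd1.trans (hg1 k), hd2.trans (hg2 k)⟩
  -- the line starts on side `i`
  have hq0 : (0 : ℝ) < q := by linarith
  have hql : (q : ℝ) < P.len i := by linarith
  have hp1 : h (E θ) (P.p (i + 1)) = h (E θ) (P.p i) + P.len i * κ := by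
    have h1 : h (E θ) (P.p (i + 1) - P.p i) = P.len i * κ := by
      rw [P.side_eq, h_rmul, ← hκd]
    rw [h_sub] at h1
    linarith
  have hent : P.Exit i (rev (thr X (E θ))) := by
    constructor
    · show h (-(E θ)) (P.p i) < -(h (E θ) X)
      rw [h_neg_left, hx2]
      nlinarith
    · show -(h (E θ) X) < h (-(E θ)) (P.p (i + 1))
      rw [h_neg_left, hx2, hp1]
      nlinarith
  have hstart : P.Start X (thr X (E θ)) := by
    have h2 : P.ex i (rev (thr X (E θ))) = X := by
      refine P.ex_eq hent ?_ (t := (q : ℝ) / P.len i) ?_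
      · show h (-(E θ)) X = -(h (E θ) X)
        rw [h_neg_left]
      · rw [hX]
        exact P.noStrip_pt i q
    have h3 := P.start_side (L := thr X (E θ)) (E_norm θ) hent
    rw [h2] at h3
    exact h3
  obtain ⟨N, hN⟩ := exists_nat_one_div_lt hd1
  refine hS i q N hq0 hql ?_
  rw [← hX]
  exact ⟨hstart, c, fun k => ⟨hex k, (hN.trans (hg1 k)).le⟩⟩

end CPoly

end

end Pool.Agent.MP2e716c.NB
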