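import Pool.Agent.H.MP_2e716c_an.sg.SameCode
import Pool.Agent.H.MP_2e716c_an.sg.NoStrip

/-! # Without a totally trapped corner line almost no orbit is trapped (MP_2e716c_an, sg) -/

open Set MeasureTheory Filter Topology

namespace Pool.Agent.MP2e716c

noncomputable section

namespace SemiDisp

variable {n : ℕ} [NeZero n] (T : SemiDisp n)

/-- The corner angles. -/
theorem cornerAngle_eq (hconv : Convex ℝ T.P.region)
    (hcorner : ∀ i, deriv (T.P.γ (i + 1)) 0 ≠ deriv (T.P.γ i) 0) (m : Fin n) :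
    T.P.cornerAngle m = (T.P.poly T.straight hconv hcorner).ang m := by
  set P := T.P.poly T.straight hconv hcorner with hP
  have h1 : T.P.γ (m + 1) 0 - T.P.γ m 0 = (P.len m : ℂ) * P.e m := P.side_eq m
  have h2 : T.P.γ (m - 1) 0 - T.P.γ m 0 = (P.len (m - 1) : ℂ) * (-P.e (m - 1)) := by
    have h3 := P.side_eq (m - 1)
    rw [sub_add_cancel] at h3
    rw [mul_neg, ← h3, neg_sub]
    rfl
  have hl := P.len_pos m
  have hl' := P.len_pos (m - 1)
  have he : ∀ j, P.e j ≠ 0 := by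
    intro j h0
    have := P.e_norm j
    rw [h0, norm_zero] at this
    exact zero_ne_one this
  have hx : (P.len m : ℂ) * P.e m ≠ 0 := mul_ne_zero (by exact_mod_cast hl.ne') (he m)
  have hy : (P.len (m - 1) : ℂ) * (-P.e (m - 1)) ≠ 0 :=
    mul_ne_zero (by exact_mod_cast hl'.ne') (neg_ne_zero.2 (he _))
  rw [Table.cornerAngle, h1, h2, InnerProductGeometry.angle_comm, Complex.angle_eq_abs_arg hy hx]
  have h3 : (P.len (m - 1) : ℂ) * (-P.e (m - 1)) / ((P.len m : ℂ) * P.e m) =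
      ((P.len (m - 1) / P.len m : ℝ) : ℂ) * (-P.e (m - 1) / P.e m) := by
    push_cast
    have a1 : (P.len m : ℂ) ≠ 0 := by exact_mod_cast hl.ne'
    have a2 := he m
    field_simp
  rw [h3, Complex.arg_real_mul _ (div_pos hl' hl)]
  have h4 := (P.ang_mem m).1
  rw [NB.CPoly.ang] at h4 ⊢
  exact abs_of_pos h4

/-- The corners of `Y` are those of `P`. -/
theorem cornerAngle_Y (m : Fin n) : T.Y.cornerAngle m = T.P.cornerAngle m := by
  simp only [Table.cornerAngle, T.corner]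

/-- Two trapped rays (in both directions) which start on side `i` in the direction `θ` are not close,
for almost every `θ`. -/
theorem fibre_sep (hconv : Convex ℝ T.P.region)
    (hcorner : ∀ i, deriv (T.P.γ (i + 1)) 0 ≠ deriv (T.P.γ i) 0) {S : Set (Fin n)}
    (hS : Disjoint S T.disp) (h : ¬ T.Y.TotallyTrapped S) (i : Fin n) :
    ∃ w > 0, ∀ᵐ θ : ℝ, ∀ r r' : ℝ, T.Y.Trapped S (i, r, θ) → T.Y.Trapped S (i, r', θ) →
      T.Y.Trapped S (Table.rev (i, r, θ)) → T.Y.Trapped S (Table.rev (i, r', θ)) → r < r' →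
      r + w ≤ r' := by
  have hA : ∀ m, 0 < T.Y.cornerAngle m := by
    intro m
    rw [T.cornerAngle_Y, T.cornerAngle_eq hconv hcorner]
    exact ((T.P.poly T.straight hconv hcorner).ang_mem m).1
  obtain ⟨ε, hε, hno⟩ := T.Y.exists_close (S := S)
    (fun m => T.Y.unit m 0 ⟨le_rfl, (T.Y.len_pos m).le⟩) hA h
  simp only [T.cornerAngle_Y, T.cornerAngle_eq hconv hcorner] at hno
  obtain ⟨w, hw, hcode⟩ := T.same_code hconv hcorner hS hε hno
  refine ⟨w, hw, ?_⟩
  set P := T.P.poly T.straight hconv hcorner with hP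
  obtain ⟨φ, hφ⟩ : ∃ φ, φ = Complex.arg (T.P.dir i) + Real.pi / 2 := ⟨_, rfl⟩
  have hns : ∀ᵐ θ : ℝ, ∀ (i : Fin n) (s s' : ℝ), 0 < s → s < s' → s' < P.len i →
      NB.h (NB.E (φ - θ)) (P.e i) < 0 → ∀ c : ℕ → Fin n,
      (∀ k, P.Exit (c k) (P.st c k (NB.thr (P.p i + s * P.e i) (NB.E (φ - θ))))) →
      ¬ ∀ k, P.Exit (c k) (P.st c k (NB.thr (P.p i + s' * P.e i) (NB.E (φ - θ)))) :=
    (Measure.measurePreserving_sub_left volume φ).quasiMeasurePreserving.ae P.ae_no_strip
  filter_upwards [hns] with θ hθ r r' t1 t2 t3 t4 hlt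
  by_contra hcon
  push Not at hcon
  have hc := hcode i r r' θ t1 t2 t3 t4 hlt hcon
  have hnd : ∀ {z : Fin n × ℝ × ℝ}, T.Y.Trapped S z → ∀ k, (T.Y.bmap^[k] z).1 ∉ T.disp :=
    fun ht k hk => Set.disjoint_left.1 hS (ht k).2 hk
  have hi : i ∉ T.disp := hnd t1 0
  have hl : P.len i = T.P.len i := by
    change ‖T.P.γ (i + 1) 0 - T.P.γ i 0‖ = T.P.len i
    rw [Table.tab_next T.straight i, add_sub_cancel_left, norm_mul, Table.dir_norm, mul_one,
      Complex.norm_real, Real.norm_of_nonneg (T.P.len_pos i).le]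
  have hph : (i, r, θ) ∈ T.P.phase := T.geo8_phase hi (t1 0).1
  have hph' : (i, r', θ) ∈ T.P.phase := T.geo8_phase hi (t2 0).1
  have he : P.e i = T.P.dir i := Table.tab_e T.straight hconv hcorner i
  have hvel : ∀ s : ℝ, T.P.vel (i, (s, θ)) = NB.E (φ - θ) := by
    intro s
    rw [hφ]
    exact Table.tab_vel_E T.straight i (s, θ)
  have hline : ∀ s : ℝ, T.P.line (i, (s, θ)) = NB.thr (P.p i + s * P.e i) (NB.E (φ - θ)) := by
    intro s
    rw [Table.line, hvel, Table.tab_pt T.straight, he]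
    rfl
  have hh : NB.h (NB.E (φ - θ)) (P.e i) < 0 := by
    rw [he, ← hvel r]
    have h1 := Table.tab_h_vel T.straight hph
    rw [h1]
    exact neg_neg_of_pos (T.P.cos_pos hph)
  have key : ∀ s : ℝ, T.Y.Trapped S (i, s, θ) → ∀ k,
      P.Exit ((fun q => (T.Y.bmap^[q + 1] (i, s, θ)).1) k)
        (P.st (fun q => (T.Y.bmap^[q + 1] (i, s, θ)).1) k
          (NB.thr (P.p i + s * P.e i) (NB.E (φ - θ)))) := by
    intro s ht k
    have hnext : ∀ k, T.P.Next (T.Y.bmap^[k] (i, s, θ)) (T.Y.bmap^[k + 1] (i, s, θ)) :=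
      fun k => T.next_P (T.Y.trapped_next ht k) (hnd ht k) (hnd ht (k + 1))
    have h1 := Table.path_line T.straight hconv hcorner
      (z := fun k => T.Y.bmap^[k] (i, s, θ)) hnext k
    have h2 := (Table.next_exit T.straight hconv hcorner (hnext k)).1
    rw [← hline s]
    rw [← h1] at h2
    exact h2
  have e1 : (fun q => (T.Y.bmap^[q + 1] (i, r', θ)).1) =
      (fun q => (T.Y.bmap^[q + 1] (i, r, θ)).1) := by
    funext q
    exact (hc (q + 1)).symm
  have k1 := key r t1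
  have k2 := key r' t2
  rw [e1] at k2
  exact hθ i r r' hph.1.1 hlt (by rw [hl]; exact hph'.1.2) hh _ k1 k2

theorem AS_null_of_not_totallyTrapped (hconv : Convex ℝ T.P.region)
    (hcorner : ∀ i, deriv (T.P.γ (i + 1)) 0 ≠ deriv (T.P.γ i) 0) {S : Set (Fin n)}
    (hS : Disjoint S T.disp) (h : ¬ T.Y.TotallyTrapped S) : T.Y.μ (T.Y.AS S) = 0 := by
  rw [measure_eq_zero_iff_ae_notMem, T.Y.ae_mu_iff]
  intro i
  have h1 := T.Y.ae_mu_iff.1 (T.Y.ae_trapped_rev S) i
  obtain ⟨G, hG⟩ : ∃ G : Set (ℝ × ℝ), G = {x : ℝ × ℝ | T.Y.Trapped S (i, x) ∧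
      T.Y.Trapped S (Table.rev (i, x))} := ⟨_, rfl⟩
  have hGm : MeasurableSet G := by
    have a1 : Measurable fun x : ℝ × ℝ => (i, x) := measurable_prodMk_left
    rw [hG]
    exact ((T.Y.measurableSet_trapped S).preimage a1).inter
      ((T.Y.measurableSet_trapped S).preimage (Table.measurable_rev.comp a1))
  have hG0 : volume G = 0 := by
    obtain ⟨w, hw, hsep⟩ := T.fibre_sep hconv hcorner hS h i
    have hsw := Measure.measurePreserving_swap (μ := (volume : Measure ℝ))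
      (ν := (volume : Measure ℝ))
    have hpre := hsw.measure_preimage hGm.nullMeasurableSet
    have hvol : (volume : Measure (ℝ × ℝ)) = (volume : Measure ℝ).prod (volume : Measure ℝ) := rfl
    rw [hvol, ← hpre]
    rw [Measure.measure_prod_null (hsw.measurable hGm)]
    filter_upwards [hsep] with θ hθ
    change volume (Prod.mk θ ⁻¹' (Prod.swap ⁻¹' G)) = 0
    refine measure_null_of_locally_null _ fun r hr => ?_
    refine ⟨(Prod.mk θ ⁻¹' (Prod.swap ⁻¹' G)) ∩ Metric.ball r w, ?_, ?_⟩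
    · exact Filter.inter_mem self_mem_nhdsWithin
        (mem_nhdsWithin_of_mem_nhds (Metric.ball_mem_nhds r hw))
    · refine measure_mono_null (t := {r}) ?_ (measure_singleton r)
      rintro r' ⟨hr', hd⟩
      rw [hG] at hr hr'
      rw [Metric.mem_ball, Real.dist_eq] at hd
      rw [mem_singleton_iff]
      rcases lt_trichotomy r r' with hlt | heq | hgt
      · have := hθ r r' hr.1 hr'.1 hr.2 hr'.2 hlt
        have h2 := (abs_lt.1 hd).2
        linarith
      · exact heq.symm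
      · have := hθ r' r hr'.1 hr.1 hr'.2 hr.2 hgt
        have h2 := (abs_lt.1 hd).1
        linarith
  have h2 : ∀ᵐ x : ℝ × ℝ, x ∉ G := measure_eq_zero_iff_ae_notMem.1 hG0
  filter_upwards [h1, h2] with x a b hx hAS
  apply b
  rw [hG]
  exact ⟨T.Y.trapped_of_AS hAS, a hx hAS⟩

end SemiDisp

end

end Pool.Agent.MP2e716c
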