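import Pool.Agent.H.MP_2e716c_an.sg.Fold
import Pool.Agent.H.MP_2e716c_an.nb.Ang
import Pool.Agent.H.MP_2e716c_an.nb.LenA

/-! # A line which passes a corner (MP_2e716c_an, sg) -/

open Set MeasureTheory Filter Topology

namespace Pool.Agent.MP2e716c.NB

noncomputable section

namespace CPoly

variable {n : ℕ} [NeZero n] (P : CPoly n)

/-- At some step the line passes the corner `m` at distance less than `w` and its direction is
`ε`-close to the direction of angle `φ` at this corner. -/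
def Near (m : Fin n) (w ε φ : ℝ) (c : ℕ → Fin n) (L : ℂ × ℝ) : Prop :=
  ∃ (J : ℕ) (b : ℝ), (P.st c J L).1 = P.e m * E b ∧
    |h (P.st c J L).1 (P.p m) - (P.st c J L).2| < w ∧ |b - φ| < ε

private theorem pass_h_swap (a b : ℂ) : h a b = -h b a := by
  simp only [h, ip, Complex.mul_re, Complex.mul_im, Complex.I_re, Complex.I_im]
  ring

private theorem pass_h_mul {a : ℂ} (ha : ‖a‖ = 1) (u v : ℂ) : h (a * u) (a * v) = h u v := by
  have h1 : a.re * a.re + a.im * a.im = 1 := by
    have := ip_self a; rw [ha] at this; simpa [ip] using this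
  simp only [h, ip, Complex.mul_re, Complex.mul_im, Complex.I_re, Complex.I_im]
  linear_combination (u.re * v.im - u.im * v.re) * h1

private theorem pass_h_E {a : ℂ} (ha : ‖a‖ = 1) (s t : ℝ) :
    h (a * E s) (a * E t) = Real.sin (t - s) := by
  rw [pass_h_mul ha, h_E]

private theorem pass_E_zero : E 0 = 1 := by simp [E]

private theorem pass_side' (m : Fin n) :
    P.p (m - 1) - P.p m = (P.len (m - 1) : ℂ) * (-P.e (m - 1)) := by
  have h1 := P.side_eq (m - 1)
  rw [sub_add_cancel] at h1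
  rw [mul_neg, ← h1, neg_sub]

private theorem pass_h_next (m : Fin n) (θ : ℝ) :
    h (P.e m * E θ) (P.p (m + 1)) = h (P.e m * E θ) (P.p m) - P.len m * Real.sin θ := by
  have h1 := h_sub (P.e m * E θ) (P.p (m + 1)) (P.p m)
  rw [P.side_eq, h_rmul] at h1
  have h2 := pass_h_E (P.e_norm m) θ 0
  rw [pass_E_zero, mul_one, zero_sub, Real.sin_neg] at h2
  rw [h2] at h1
  linarith

private theorem pass_h_prev (m : Fin n) (θ : ℝ) :
    h (P.e m * E θ) (P.p (m - 1)) =
      h (P.e m * E θ) (P.p m) + P.len (m - 1) * Real.sin (P.ang m - θ) := by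
  have h1 := h_sub (P.e m * E θ) (P.p (m - 1)) (P.p m)
  rw [pass_side', h_rmul, e_ang, pass_h_E (P.e_norm m)] at h1
  linarith

private theorem pass_sin {δ a x : ℝ} (hδ : 0 < δ) (ha : 0 < a) (h1 : δ ≤ x) (h2 : x ≤ Real.pi - a) :
    min (Real.sin δ) (Real.sin a) ≤ Real.sin x := by
  rcases le_or_gt x (Real.pi / 2) with h | h
  · refine (min_le_left _ _).trans ?_
    exact Real.sin_le_sin_of_le_of_le_pi_div_two (by linarith [Real.pi_pos]) h h1
  · refine (min_le_right _ _).trans ?_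
    rw [← Real.sin_pi_sub x]
    exact Real.sin_le_sin_of_le_of_le_pi_div_two (by linarith [Real.pi_pos]) (by linarith)
      (by linarith)

/-- The result of the reflections at the corner. -/
private def PassR (m : Fin n) (w δ b : ℝ) (c : ℕ → Fin n) (L : ℂ × ℝ) : Prop :=
  ∃ (J : ℕ) (b' : ℝ) (z : ℤ), (P.st c J L).1 = P.e m * E b' ∧
    |h (P.st c J L).1 (P.p m) - (P.st c J L).2| < w ∧ -δ < b' ∧ b' < P.ang m + δ ∧
    (b' = b + z * (2 * P.ang m) ∨ b' = -b + z * (2 * P.ang m))

private def PassCL (m : Fin n) (w δ : ℝ) (N : ℕ) : Prop :=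
  ∀ (b : ℝ) (L : ℂ × ℝ) (c : ℕ → Fin n), L.1 = P.e m * E b → (∀ k, P.Exit (c k) (P.st c k L)) →
    L.2 < h L.1 (P.p m) → h L.1 (P.p m) < L.2 + w → b ∈ Ioo 0 Real.pi → b < N * P.ang m →
    P.PassR m w δ b c L

private def PassCR (m : Fin n) (w δ : ℝ) (N : ℕ) : Prop :=
  ∀ (b : ℝ) (L : ℂ × ℝ) (c : ℕ → Fin n), L.1 = P.e m * E b → (∀ k, P.Exit (c k) (P.st c k L)) →
    h L.1 (P.p m) < L.2 → L.2 < h L.1 (P.p m) + w → b ∈ Ioo (P.ang m - Real.pi) (P.ang m) →
    -(N * P.ang m) < b → P.PassR m w δ b c L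

private theorem pass_next {m : Fin n} {w δ b b₁ : ℝ} {c : ℕ → Fin n} {L : ℂ × ℝ}
    (h1 : P.PassR m w δ b₁ (fun q => c (1 + q)) (P.st c 1 L)) (z₀ : ℤ)
    (hb : b₁ = -b + z₀ * (2 * P.ang m)) : P.PassR m w δ b c L := by
  obtain ⟨J, b', z, e1, e2, e3, e4, e5⟩ := h1
  rw [← P.st_add] at e1 e2
  rcases e5 with e5 | e5
  · refine ⟨1 + J, b', z + z₀, e1, e2, e3, e4, Or.inr ?_⟩
    rw [e5, hb]
    push_cast
    ring
  · refine ⟨1 + J, b', z - z₀, e1, e2, e3, e4, Or.inl ?_⟩
    rw [e5, hb]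
    push_cast
    ring

private theorem pass_exits {c : ℕ → Fin n} {L : ℂ × ℝ} (hE : ∀ k, P.Exit (c k) (P.st c k L)) :
    ∀ k, P.Exit ((fun q => c (1 + q)) k) (P.st (fun q => c (1 + q)) k (P.st c 1 L)) := by
  intro k
  rw [← P.st_add]
  exact hE (1 + k)

private theorem pass_L {m : Fin n} {w δ : ℝ} (hδ : 0 < δ)
    (hw : w ≤ P.len (m - 1) * min (Real.sin δ) (Real.sin (P.ang m))) {N : ℕ}
    (hN : ∀ M < N, P.PassCR m w δ M) : P.PassCL m w δ N := by
  intro b L c hL hE h1 h2 hb hbN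
  have ha := P.ang_mem m
  by_cases hba : b < P.ang m + δ
  · refine ⟨0, b, 0, hL, ?_, by linarith [hb.1], hba, Or.inl (by push_cast; ring)⟩
    show |h L.1 (P.p m) - L.2| < w
    rw [abs_lt]
    constructor <;> linarith
  · rw [not_lt] at hba
    have s1 := pass_sin hδ ha.1 (x := b - P.ang m) (by linarith) (by linarith [hb.2])
    have s2 := mul_le_mul_of_nonneg_left s1 (P.len_pos (m - 1)).le
    have s3 : h L.1 (P.p (m - 1)) = h L.1 (P.p m) - P.len (m - 1) * Real.sin (b - P.ang m) := by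
      rw [hL, pass_h_prev, ← neg_sub b, Real.sin_neg]
      ring
    have hex : P.Exit (m - 1) L := by
      refine ⟨by linarith, ?_⟩
      rw [sub_add_cancel]
      exact h1
    have hc0 : c 0 = m - 1 := P.exit_unique (hE 0) hex
    have hst : P.st c 1 L = P.refL (m - 1) L := by
      show P.refL (c 0) L = P.refL (m - 1) L
      rw [hc0]
    have hd : (P.st c 1 L).1 = P.e m * E (2 * P.ang m - b) := by
      rw [hst]
      show P.refD (m - 1) L.1 = _
      rw [hL, P.refD_side']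
    have hp := P.h_refL_p1 (m - 1) L
    rw [sub_add_cancel, ← hst] at hp
    have hN2 : 2 ≤ N := by
      by_contra hc
      have h3 : (N : ℝ) ≤ 1 := by exact_mod_cast (by omega : N ≤ 1)
      have h4 := mul_le_mul_of_nonneg_right h3 ha.1.le
      linarith
    have hN3 : ((N - 2 : ℕ) : ℝ) = (N : ℝ) - 2 := by
      rw [Nat.cast_sub hN2]
      norm_num
    refine P.pass_next (hN (N - 2) (by omega) (2 * P.ang m - b) _ _ hd (P.pass_exits hE) ?_ ?_ ?_ ?_)
      1 (by push_cast; ring)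
    · linarith
    · linarith
    · exact ⟨by linarith [hb.2, ha.1], by linarith⟩
    · rw [hN3]
      linarith

private theorem pass_R {m : Fin n} {w δ : ℝ} (hδ : 0 < δ)
    (hw : w ≤ P.len m * min (Real.sin δ) (Real.sin (P.ang m))) {N : ℕ}
    (hN : P.PassCL m w δ N) : P.PassCR m w δ N := by
  intro b L c hL hE h1 h2 hb hbN
  have ha := P.ang_mem m
  by_cases hba : -δ < b
  · refine ⟨0, b, 0, hL, ?_, hba, by linarith [hb.2], Or.inl (by push_cast; ring)⟩
    show |h L.1 (P.p m) - L.2| < w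
    rw [abs_lt]
    constructor <;> linarith
  · rw [not_lt] at hba
    have s1 := pass_sin hδ ha.1 (x := -b) (by linarith) (by linarith [hb.1])
    have s2 := mul_le_mul_of_nonneg_left s1 (P.len_pos m).le
    have s3 : h L.1 (P.p (m + 1)) = h L.1 (P.p m) + P.len m * Real.sin (-b) := by
      rw [hL, pass_h_next, Real.sin_neg]
      ring
    have hex : P.Exit m L := ⟨h1, by linarith⟩
    have hc0 : c 0 = m := P.exit_unique (hE 0) hex
    have hst : P.st c 1 L = P.refL m L := by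
      show P.refL (c 0) L = P.refL m L
      rw [hc0]
    have hd : (P.st c 1 L).1 = P.e m * E (-b) := by
      rw [hst]
      show P.refD m L.1 = _
      rw [hL, P.refD_side]
    have hp := P.h_refL_p m L
    rw [← hst] at hp
    refine P.pass_next (hN (-b) _ _ hd (P.pass_exits hE) ?_ ?_ ?_ ?_) 0 (by push_cast; ring)
    · linarith
    · linarith
    · exact ⟨by linarith, by linarith [hb.1, ha.1]⟩
    · linarith

/-- A line which passes close to the corner `m` (at distance less than `w`; the corner is on its right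
and its angle is in `(α - π, α)`, or the corner is on its left and its angle is in `(0, π)`, where `α`
is the angle of the polygon at `m`) is reflected in the sides `m - 1` and `m` in turn, as long as it
points out of the corner; after that its angle is, up to `ε`, the folded angle. -/
theorem pass {ε : ℝ} (hε : 0 < ε) : ∃ w > 0, ∀ w' ≤ w, ∀ (m : Fin n) (b : ℝ) (L : ℂ × ℝ) (c : ℕ → Fin n),
    L.1 = P.e m * E b → (∀ k, P.Exit (c k) (P.st c k L)) →
    ((h L.1 (P.p m) < L.2 ∧ L.2 < h L.1 (P.p m) + w' ∧ b ∈ Ioo (P.ang m - Real.pi) (P.ang m)) ∨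
      (L.2 < h L.1 (P.p m) ∧ h L.1 (P.p m) < L.2 + w' ∧ b ∈ Ioo 0 Real.pi)) →
    P.Near m w' ε (fold (P.ang m) b) c L := by
  obtain ⟨δ, hδ, hδε, hδ1⟩ : ∃ δ : ℝ, 0 < δ ∧ 2 * δ < ε ∧ δ ≤ 1 :=
    ⟨min (ε / 4) 1, lt_min (by linarith) one_pos, by linarith [min_le_left (ε / 4) 1],
      min_le_right _ _⟩
  have hsδ : 0 < Real.sin δ := Real.sin_pos_of_pos_of_lt_pi hδ (by linarith [Real.pi_gt_three])
  set F : Fin n → ℝ := fun m => min (P.len m * min (Real.sin δ) (Real.sin (P.ang m)))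
    (P.len (m - 1) * min (Real.sin δ) (Real.sin (P.ang m))) with hF
  have hF0 : ∀ m, 0 < F m := by
    intro m
    have ha := P.ang_mem m
    have h1 : 0 < min (Real.sin δ) (Real.sin (P.ang m)) :=
      lt_min hsδ (Real.sin_pos_of_pos_of_lt_pi ha.1 ha.2)
    exact lt_min (mul_pos (P.len_pos m) h1) (mul_pos (P.len_pos _) h1)
  obtain ⟨m₀, hm₀⟩ := Finite.exists_min F
  refine ⟨F m₀, hF0 m₀, fun w' hw' m b L c hL hE hst => ?_⟩
  have ha := P.ang_mem m
  have hw1 : w' ≤ P.len m * min (Real.sin δ) (Real.sin (P.ang m)) :=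
    (hw'.trans (hm₀ m)).trans (min_le_left _ _)
  have hw2 : w' ≤ P.len (m - 1) * min (Real.sin δ) (Real.sin (P.ang m)) :=
    (hw'.trans (hm₀ m)).trans (min_le_right _ _)
  have key : ∀ N, P.PassCL m w' δ N ∧ P.PassCR m w' δ N := by
    intro N
    induction N using Nat.strong_induction_on with
    | _ N ih =>
      have h1 : P.PassCL m w' δ N := P.pass_L hδ hw2 fun M hM => (ih M hM).2
      exact ⟨h1, P.pass_R hδ hw1 h1⟩
  obtain ⟨N, hN⟩ := exists_nat_gt (|b| / P.ang m)
  rw [div_lt_iff₀ ha.1] at hN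
  have hR : P.PassR m w' δ b c L := by
    rcases hst with ⟨h1, h2, h3⟩ | ⟨h1, h2, h3⟩
    · exact (key N).2 b L c hL hE h1 h2 h3 (by linarith [neg_abs_le b])
    · exact (key N).1 b L c hL hE h1 h2 h3 (by linarith [le_abs_self b])
  obtain ⟨J, b', z, e1, e2, e3, e4, e5⟩ := hR
  refine ⟨J, b', e1, e2, ?_⟩
  have e6 : fold (P.ang m) b' = fold (P.ang m) b := by
    rcases e5 with e5 | e5
    · rw [e5, fold_add]
    · rw [e5, fold_add, fold_neg]
  have e7 := fold_near ha.1 hδ.le e3.le e4.le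
  rw [← e6, abs_sub_comm]
  linarith

end CPoly

end

end Pool.Agent.MP2e716c.NB
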