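import Pool.Agent.H.MP_2e716c_an.sg.Pass
import Pool.Agent.H.MP_2e716c_an.sg.Corner

/-! # The first separation of two close parallel paths (MP_2e716c_an, sg) -/

open Set MeasureTheory Filter Topology

namespace Pool.Agent.MP2e716c.NB

noncomputable section

namespace CPoly

variable {n : ℕ} [NeZero n] (P : CPoly n)

private theorem sep_E_sub (φ : ℝ) : E (φ - Real.pi) = -E φ := by
  have h1 : E (-Real.pi) = -1 := by
    apply Complex.ext
    · rw [E_re]; simp
    · rw [E_im]; simp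
  rw [sub_eq_add_neg, E_add, h1, mul_neg, mul_one]

private theorem sep_E_add (φ : ℝ) : E (φ + Real.pi) = -E φ := by
  have h1 : E Real.pi = -1 := by
    apply Complex.ext
    · rw [E_re]; simp
    · rw [E_im]; simp
  rw [E_add, h1, mul_neg, mul_one]

private theorem sep_shift {m : Fin n} {w ε x : ℝ} {c : ℕ → Fin n} {k : ℕ} {L : ℂ × ℝ}
    (hN : P.Near m w ε x (fun q => c (k + q)) (P.st c k L)) : P.Near m w ε x c L := by
  obtain ⟨J, b, h1, h2, h3⟩ := hN
  refine ⟨k + J, b, ?_, ?_, h3⟩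
  · rw [P.st_add]; exact h1
  · rw [P.st_add]; exact h2

private theorem sep_exit {c : ℕ → Fin n} {L : ℂ × ℝ} (hE : ∀ k, P.Exit (c k) (P.st c k L)) (k : ℕ) :
    ∀ q, P.Exit ((fun q => c (k + q)) q) (P.st (fun q => c (k + q)) q (P.st c k L)) := by
  intro q
  rw [← P.st_add]
  exact hE (k + q)

/-- A right line `(u, s1)` and a left line `(u, s2)` which leave through different sides. -/
private theorem sep_two {ε w : ℝ}
    (hpass : ∀ (m : Fin n) (b : ℝ) (L : ℂ × ℝ) (c : ℕ → Fin n),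
      L.1 = P.e m * E b → (∀ k, P.Exit (c k) (P.st c k L)) →
      ((h L.1 (P.p m) < L.2 ∧ L.2 < h L.1 (P.p m) + w ∧ b ∈ Ioo (P.ang m - Real.pi) (P.ang m)) ∨
        (L.2 < h L.1 (P.p m) ∧ h L.1 (P.p m) < L.2 + w ∧ b ∈ Ioo 0 Real.pi)) →
      P.Near m w ε (fold (P.ang m) b) c L)
    (hcorner : ∀ (u : ℂ) (s s' : ℝ) (i j : Fin n), ‖u‖ = 1 →
      P.Exit i (u, s) → P.Exit j (u, s') → s < s' → s' < s + w → i ≠ j →
      i = j - 1 ∧ s < h u (P.p j) ∧ h u (P.p j) < s' ∧ ∃ φ ∈ Ioo 0 (P.ang j), u = -(P.e j * E φ))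
    {u : ℂ} {s1 s2 : ℝ} {d1 d2 : ℕ → Fin n} (hu : ‖u‖ = 1) (h12 : s1 < s2) (h21 : s2 < s1 + w)
    (h1 : ∀ k, P.Exit (d1 k) (P.st d1 k (u, s1))) (h2 : ∀ k, P.Exit (d2 k) (P.st d2 k (u, s2)))
    (hd : d1 0 ≠ d2 0) :
    ∃ (m : Fin n) (φ : ℝ), φ ∈ Ioo 0 (P.ang m) ∧ d1 0 = m - 1 ∧ d2 0 = m ∧
      u = -(P.e m * E φ) ∧ s1 < h u (P.p m) ∧ h u (P.p m) < s2 ∧
      P.Near m w ε (fold (P.ang m) (φ - Real.pi)) d2 (u, s2) ∧
      P.Near m w ε (fold (P.ang m) (φ + Real.pi)) d1 (u, s1) := by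
  obtain ⟨hi, hs1, hs2, φ, hφ, huφ⟩ := hcorner u s1 s2 (d1 0) (d2 0) hu (h1 0) (h2 0) h12 h21 hd
  obtain ⟨m, hm⟩ : ∃ m, m = d2 0 := ⟨_, rfl⟩
  rw [← hm] at hi hs1 hs2 hφ huφ
  have ha := P.ang_mem m
  refine ⟨m, φ, hφ, hi, hm.symm, huφ, hs1, hs2, ?_, ?_⟩
  · -- the left line
    have hdir : (P.refL m (u, s2)).1 = P.e m * E (Real.pi - φ) := by
      show P.refD m u = _
      have e1 : u = P.e m * E (φ - Real.pi) := by rw [sep_E_sub, huφ]; ring
      rw [e1, P.refD_side]
      congr 2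
      ring
    have hr := P.h_refL_p m (u, s2)
    have hst : P.st d2 1 (u, s2) = P.refL m (u, s2) := by
      show P.refL (d2 0) (u, s2) = _
      rw [← hm]
    have hN := hpass m (Real.pi - φ) (P.st d2 1 (u, s2)) (fun q => d2 (1 + q))
      (by rw [hst]; exact hdir) (P.sep_exit h2 1)
      (Or.inr (by
        rw [hst]
        simp only at hr
        exact ⟨by linarith, by linarith, by linarith [hφ.2, ha.2], by linarith [hφ.1]⟩))
    have hf : fold (P.ang m) (Real.pi - φ) = fold (P.ang m) (φ - Real.pi) := by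
      rw [← fold_neg]; congr 1; ring
    rw [hf] at hN
    exact P.sep_shift hN
  · -- the right line
    have hdir : (P.refL (m - 1) (u, s1)).1 = P.e m * E (2 * P.ang m - (φ + Real.pi)) := by
      show P.refD (m - 1) u = _
      have e1 : u = P.e m * E (φ + Real.pi) := by rw [sep_E_add, huφ]; ring
      rw [e1, P.refD_side']
    have hr := P.h_refL_p1 (m - 1) (u, s1)
    rw [sub_add_cancel] at hr
    have hst : P.st d1 1 (u, s1) = P.refL (m - 1) (u, s1) := by
      show P.refL (d1 0) (u, s1) = _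
      rw [hi]
    have hN := hpass m (2 * P.ang m - (φ + Real.pi)) (P.st d1 1 (u, s1)) (fun q => d1 (1 + q))
      (by rw [hst]; exact hdir) (P.sep_exit h1 1)
      (Or.inl (by
        rw [hst]
        simp only at hr
        exact ⟨by linarith, by linarith, by linarith [hφ.2], by linarith [hφ.1, ha.2]⟩))
    have hf : fold (P.ang m) (2 * P.ang m - (φ + Real.pi)) = fold (P.ang m) (φ + Real.pi) := by
      rw [← fold_neg]
      have e2 := fold_add (P.ang m) (φ + Real.pi) (-1)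
      rw [← e2]
      congr 1
      push_cast
      ring
    rw [hf] at hN
    exact P.sep_shift hN

/-- If two close parallel paths have different codes then at the first separation they pass a corner
`m` on different sides, with direction `-E φ` at the corner, and later one of them leaves the corner in
the direction `φ - π`, one in the direction `φ + π` (folded). -/
theorem sep {ε : ℝ} (hε : 0 < ε) : ∃ w > 0, w ≤ ε ∧
    ∀ (L : ℂ × ℝ) (r : ℝ) (c c' : ℕ → Fin n), ‖L.1‖ = 1 → 0 < r → r < w →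
    (∀ k, P.Exit (c k) (P.st c k L)) → (∀ k, P.Exit (c' k) (P.st c' k (off true r L))) → c ≠ c' →
    ∃ (k : ℕ) (m : Fin n) (φ : ℝ), φ ∈ Ioo 0 (P.ang m) ∧
      ((c k = m - 1 ∧ c' k = m) ∨ (c k = m ∧ c' k = m - 1)) ∧
      (P.st c k L).1 = -(P.e m * E φ) ∧ |h (P.st c k L).1 (P.p m) - (P.st c k L).2| < w ∧
      (P.Near m w ε (fold (P.ang m) (φ - Real.pi)) c L ∨
        P.Near m w ε (fold (P.ang m) (φ - Real.pi)) c' (off true r L)) ∧
      (P.Near m w ε (fold (P.ang m) (φ + Real.pi)) c L ∨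
        P.Near m w ε (fold (P.ang m) (φ + Real.pi)) c' (off true r L)) := by
  obtain ⟨w1, hw1, hpass⟩ := P.pass hε
  obtain ⟨w2, hw2, hcorner⟩ := P.corner
  obtain ⟨w, hw⟩ : ∃ w, w = min (min w1 w2) ε := ⟨_, rfl⟩
  have l1 : w ≤ w1 := by rw [hw]; exact (min_le_left _ _).trans (min_le_left _ _)
  have l2 : w ≤ w2 := by rw [hw]; exact (min_le_left _ _).trans (min_le_right _ _)
  have l3 : w ≤ ε := by rw [hw]; exact min_le_right _ _
  have l0 : 0 < w := by rw [hw]; exact lt_min (lt_min hw1 hw2) hε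
  refine ⟨w, l0, l3, fun L r c c' hL hr hrw hE hE' hcc => ?_⟩
  have hex : ∃ q, c q ≠ c' q := Function.ne_iff.1 hcc
  classical
  obtain ⟨k, hk, hmin⟩ : ∃ k, c k ≠ c' k ∧ ∀ q < k, c q = c' q :=
    ⟨Nat.find hex, Nat.find_spec hex, fun q hq => not_not.1 (Nat.find_min hex hq)⟩
  have hst : P.st c' k (off true r L) = off (sb true k) r (P.st c k L) := by
    rw [← P.st_off, P.st_congr hmin]
  have hpass' := hpass w l1
  have hcorner' : ∀ (u : ℂ) (s s' : ℝ) (i j : Fin n), ‖u‖ = 1 →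
      P.Exit i (u, s) → P.Exit j (u, s') → s < s' → s' < s + w → i ≠ j →
      i = j - 1 ∧ s < h u (P.p j) ∧ h u (P.p j) < s' ∧ ∃ φ ∈ Ioo 0 (P.ang j), u = -(P.e j * E φ) :=
    fun u s s' i j a1 a2 a3 a4 a5 a6 => hcorner u s s' i j a1 a2 a3 a4 (by linarith) a6
  obtain ⟨u, s, hus⟩ : ∃ u s, P.st c k L = (u, s) := ⟨_, _, rfl⟩
  have hu : ‖u‖ = 1 := by
    have e1 := P.st_norm c k L
    rw [hus, hL] at e1
    exact e1
  have x1 := P.sep_exit hE k
  have x2 := P.sep_exit hE' k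
  rw [hst] at x2
  rw [hus] at x1 x2
  have hne : (fun q => c (k + q)) 0 ≠ (fun q => c' (k + q)) 0 := hk
  rcases sv_cases (sb true k) with ⟨hb, hv⟩ | ⟨hb, hv⟩
  · have hoff : off (sb true k) r (u, s) = (u, s + r) := by
      show (u, s + sv (sb true k) * r) = _
      rw [hv, one_mul]
    rw [hoff] at x2
    obtain ⟨m, φ, hφ, y1, y2, y3, y4, y5, y6, y7⟩ :=
      P.sep_two hpass' hcorner' hu (show s < s + r by linarith) (show s + r < s + w by linarith)
        x1 x2 hne
    refine ⟨k, m, φ, hφ, Or.inl ⟨y1, y2⟩, by rw [hus]; exact y3, ?_, Or.inr ?_, Or.inl ?_⟩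
    · rw [hus]
      show |h u (P.p m) - s| < w
      rw [abs_lt]
      constructor <;> linarith
    · apply P.sep_shift (k := k)
      rw [hst, hus, hoff]
      exact y6
    · apply P.sep_shift (k := k)
      rw [hus]
      exact y7
  · have hoff : off (sb true k) r (u, s) = (u, s - r) := by
      show (u, s + sv (sb true k) * r) = _
      rw [hv]
      congr 1
      ring
    rw [hoff] at x2
    obtain ⟨m, φ, hφ, y1, y2, y3, y4, y5, y6, y7⟩ :=
      P.sep_two hpass' hcorner' hu (show s - r < s by linarith) (show s < s - r + w by linarith)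
        x2 x1 hne.symm
    refine ⟨k, m, φ, hφ, Or.inr ⟨y2, y1⟩, by rw [hus]; exact y3, ?_, Or.inl ?_, Or.inr ?_⟩
    · rw [hus]
      show |h u (P.p m) - s| < w
      rw [abs_lt]
      constructor <;> linarith
    · apply P.sep_shift (k := k)
      rw [hus]
      exact y6
    · apply P.sep_shift (k := k)
      rw [hst, hus, hoff]
      exact y7

end CPoly

end

end Pool.Agent.MP2e716c.NB
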