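import Pool.Agent.H.MP_2e716c_an.sg.TRay
import Pool.Agent.H.MP_2e716c_an.sg.Sep
import Pool.Agent.H.MP_2e716c_an.nb.Tab

/-! # Two close parallel trapped rays hit the same sides for ever (MP_2e716c_an, sg) -/

open Set MeasureTheory Filter Topology

namespace Pool.Agent.MP2e716c

noncomputable section

namespace SemiDisp

variable {n : ℕ} [NeZero n] (T : SemiDisp n)

/-- The direction of a side of `S`. -/
private theorem sameCode_deriv (hconv : Convex ℝ T.P.region)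
    (hcorner : ∀ i, deriv (T.P.γ (i + 1)) 0 ≠ deriv (T.P.γ i) 0) {m : Fin n} (hm : m ∉ T.disp) :
    deriv (T.Y.γ m) 0 = (T.P.poly T.straight hconv hcorner).e m := by
  rw [Table.tab_e, (T.neutral m hm).2]
  rfl

/-- The line of a trapped orbit after `k` reflections. -/
private theorem sameCode_st (hconv : Convex ℝ T.P.region)
    (hcorner : ∀ i, deriv (T.P.γ (i + 1)) 0 ≠ deriv (T.P.γ i) 0) {S : Set (Fin n)}
    (hS : Disjoint S T.disp) {z : Fin n × ℝ × ℝ} (hz : T.Y.Trapped S z) (k : ℕ) :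
    (T.P.poly T.straight hconv hcorner).st (fun q => (T.Y.bmap^[q + 1] z).1) k (T.P.line z) =
      T.P.line (T.Y.bmap^[k] z) ∧
    (T.P.poly T.straight hconv hcorner).Exit (T.Y.bmap^[k + 1] z).1
      (T.P.line (T.Y.bmap^[k] z)) := by
  have hn : ∀ k, T.P.Next (T.Y.bmap^[k] z) (T.Y.bmap^[k + 1] z) := fun k =>
    T.next_P (T.Y.trapped_next hz k) (Set.disjoint_left.1 hS (hz k).2)
      (Set.disjoint_left.1 hS (hz (k + 1)).2)
  exact ⟨Table.path_line T.straight hconv hcorner (z := fun k => T.Y.bmap^[k] z) hn k,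
    (Table.next_exit T.straight hconv hcorner (hn k)).1⟩

private theorem sameCode_near (hconv : Convex ℝ T.P.region)
    (hcorner : ∀ i, deriv (T.P.γ (i + 1)) 0 ≠ deriv (T.P.γ i) 0) {S : Set (Fin n)}
    (hS : Disjoint S T.disp) {ε w ψ : ℝ} (hw : w ≤ ε) {m : Fin n} (hm : m ∈ S)
    {z : Fin n × ℝ × ℝ} (hz : T.Y.Trapped S z)
    (h : (T.P.poly T.straight hconv hcorner).Near m w ε ψ (fun q => (T.Y.bmap^[q + 1] z).1)
      (T.P.line z)) : T.Y.CloseRay S m ε ψ := by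
  obtain ⟨J, b, h1, h2, h3⟩ := h
  rw [(sameCode_st T hconv hcorner hS hz J).1] at h1 h2
  have hd : (T.Y.bmap^[J] z).1 ∉ T.disp := Set.disjoint_left.1 hS (hz J).2
  have hmd : m ∉ T.disp := Set.disjoint_left.1 hS hm
  have hv : T.P.vel (T.Y.bmap^[J] z) = (T.P.poly T.straight hconv hcorner).e m * NB.E b := h1
  have hp : (T.P.poly T.straight hconv hcorner).p m = T.P.γ m 0 := rfl
  refine ⟨T.Y.bmap^[J] z, T.Y.trapped_iter hz J, ?_, ?_⟩
  · rw [← T.geo8_vel hd, ← T.geo8_pt hd, T.corner m]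
    have h4 : ip (Complex.I * T.P.vel (T.Y.bmap^[J] z)) (T.P.γ m 0 - T.P.pt (T.Y.bmap^[J] z)) =
        NB.h (T.P.line (T.Y.bmap^[J] z)).1 ((T.P.poly T.straight hconv hcorner).p m) -
          (T.P.line (T.Y.bmap^[J] z)).2 := NB.h_sub _ _ _
    rw [h4]
    exact h2.trans_le hw
  · rw [← T.geo8_vel hd, hv, sameCode_deriv T hconv hcorner hmd, ← mul_sub, norm_mul,
      NB.CPoly.e_norm, one_mul]
    exact (E_dist _ _).trans_lt h3

theorem same_code (hconv : Convex ℝ T.P.region)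
    (hcorner : ∀ i, deriv (T.P.γ (i + 1)) 0 ≠ deriv (T.P.γ i) 0) {S : Set (Fin n)}
    (hS : Disjoint S T.disp) {ε : ℝ} (hε : 0 < ε)
    (hno : ∀ m, m - 1 ∈ S → m ∈ S → ∀ t : ℝ, ∃ j ∈ ({-1, 0, 1} : Set ℝ),
      ¬ T.Y.CloseRay S m ε (NB.fold ((T.P.poly T.straight hconv hcorner).ang m) (t + j * Real.pi))) :
    ∃ w > 0, ∀ (i : Fin n) (r r' θ : ℝ), T.Y.Trapped S (i, r, θ) → T.Y.Trapped S (i, r', θ) →
      T.Y.Trapped S (Table.rev (i, r, θ)) → T.Y.Trapped S (Table.rev (i, r', θ)) →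
      r < r' → r' < r + w → ∀ k, (T.Y.bmap^[k] (i, r, θ)).1 = (T.Y.bmap^[k] (i, r', θ)).1 := by
  obtain ⟨w, hw0, hwε, hsep⟩ := (T.P.poly T.straight hconv hcorner).sep hε
  refine ⟨w, hw0, ?_⟩
  intro i r r' θ hz hz' _ hrz' hrr hrw
  by_contra hcon
  push Not at hcon
  obtain ⟨k0, hk0⟩ := hcon
  have hk1 : k0 ≠ 0 := by
    rintro rfl
    exact hk0 rfl
  obtain ⟨k1, rfl⟩ := Nat.exists_eq_succ_of_ne_zero hk1
  have hi : i ∉ T.disp := Set.disjoint_left.1 hS (hz 0).2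
  have hcos : 0 < Real.cos θ := T.Y.cos_pos (hz 0).1
  have h0P : (i, (r, θ)) ∈ T.P.phase := T.geo8_phase hi (hz 0).1
  -- the two lines
  obtain ⟨φ0, hφ0⟩ : ∃ φ0, φ0 = Complex.arg (T.P.dir i) + Real.pi / 2 := ⟨_, rfl⟩
  have hvel : ∀ s : ℝ, T.P.vel (i, (s, θ)) = NB.E (φ0 - θ) := by
    intro s
    rw [hφ0]
    exact Table.tab_vel_E T.straight i (s, θ)
  have hdir : NB.h (NB.E (φ0 - θ)) (T.P.dir i) = -Real.cos θ := by
    have h1 := Table.tab_h_vel T.straight h0P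
    rw [hvel] at h1
    exact h1
  have hline : ∀ s : ℝ, T.P.line (i, (s, θ)) =
      (NB.E (φ0 - θ), NB.h (NB.E (φ0 - θ)) (T.P.γ i 0) - s * Real.cos θ) := by
    intro s
    rw [Table.line, NB.thr, hvel, Table.tab_pt T.straight]
    congr 1
    show NB.h (NB.E (φ0 - θ)) (T.P.γ i 0 + (s : ℂ) * T.P.dir i) = _
    rw [NB.h_add, NB.h_rmul, hdir]
    ring
  have hoff : NB.off true ((r' - r) * Real.cos θ) (T.P.line (i, (r', θ))) =
      T.P.line (i, (r, θ)) := by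
    rw [hline, hline, NB.off, NB.sv, if_pos rfl]
    congr 1
    ring
  have hρ0 : 0 < (r' - r) * Real.cos θ := mul_pos (by linarith) hcos
  have hρw : (r' - r) * Real.cos θ < w := by
    have h1 : (r' - r) * Real.cos θ ≤ (r' - r) * 1 :=
      mul_le_mul_of_nonneg_left (Real.cos_le_one θ) (by linarith)
    linarith
  have hnorm : ‖(T.P.line (i, (r', θ))).1‖ = 1 := by
    rw [hline]
    exact NB.E_norm _
  have hst := fun k => sameCode_st T hconv hcorner hS hz k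
  have hst' := fun k => sameCode_st T hconv hcorner hS hz' k
  obtain ⟨k, m, φ, hφ, hadj, hdirk, hoffk, hN1, hN2⟩ := hsep (T.P.line (i, (r', θ)))
    ((r' - r) * Real.cos θ) (fun q => (T.Y.bmap^[q + 1] (i, (r', θ))).1)
    (fun q => (T.Y.bmap^[q + 1] (i, (r, θ))).1) hnorm hρ0 hρw
    (fun k => by rw [(hst' k).1]; exact (hst' k).2)
    (fun k => by rw [hoff, (hst k).1]; exact (hst k).2)
    (fun h => hk0 (congrFun h k1).symm)
  rw [hoff] at hN1 hN2
  rw [(hst' k).1] at hdirk hoffk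
  have hm12 : m - 1 ∈ S ∧ m ∈ S := by
    rcases hadj with ⟨h1, h2⟩ | ⟨h1, h2⟩
    · exact ⟨h1 ▸ (hz' (k + 1)).2, h2 ▸ (hz (k + 1)).2⟩
    · exact ⟨h2 ▸ (hz (k + 1)).2, h1 ▸ (hz' (k + 1)).2⟩
  obtain ⟨j, hj, hjn⟩ := hno m hm12.1 hm12.2 φ
  apply hjn
  have hmd : m ∉ T.disp := Set.disjoint_left.1 hS hm12.2
  rcases hj with rfl | rfl | rfl
  · rw [show φ + -1 * Real.pi = φ - Real.pi by ring]
    rcases hN1 with h | h
    · exact sameCode_near T hconv hcorner hS hwε hm12.2 hz' h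
    · exact sameCode_near T hconv hcorner hS hwε hm12.2 hz h
  · -- the reversed ray
    rw [zero_mul, add_zero, NB.fold_eq (hφ.1.trans hφ.2) ⟨hφ.1.le, hφ.2.le⟩]
    have hd : (T.Y.bmap^[k] (i, (r', θ))).1 ∉ T.disp := Set.disjoint_left.1 hS (hz' k).2
    obtain ⟨_, _, τ, _, _, hpt, hinc⟩ := T.Y.trapped_next hz' k
    have hv : T.Y.vel (T.Y.bmap^[k] (i, (r', θ))) =
        -((T.P.poly T.straight hconv hcorner).e m * NB.E φ) := by
      rw [← T.geo8_vel hd]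
      exact hdirk
    refine ⟨Table.rev (T.Y.bmap^[k + 1] (i, (r', θ))), T.Y.trapped_rev_iter hz' hrz' (k + 1),
      ?_, ?_⟩
    · have h4 : ip (Complex.I * T.Y.vel (Table.rev (T.Y.bmap^[k + 1] (i, (r', θ)))))
          (T.Y.γ m 0 - T.Y.pt (Table.rev (T.Y.bmap^[k + 1] (i, (r', θ))))) =
          -(NB.h (T.P.line (T.Y.bmap^[k] (i, (r', θ)))).1
            ((T.P.poly T.straight hconv hcorner).p m) -
              (T.P.line (T.Y.bmap^[k] (i, (r', θ)))).2) := by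
        rw [T.Y.vel_rev, hinc, Table.pt_rev, hpt]
        show NB.h (-T.Y.vel (T.Y.bmap^[k] (i, (r', θ))))
          (T.Y.γ m 0 - (T.Y.pt (T.Y.bmap^[k] (i, (r', θ))) +
            (τ : ℂ) * T.Y.vel (T.Y.bmap^[k] (i, (r', θ))))) =
          -(NB.h (T.P.vel (T.Y.bmap^[k] (i, (r', θ)))) (T.P.γ m 0) -
            NB.h (T.P.vel (T.Y.bmap^[k] (i, (r', θ)))) (T.P.pt (T.Y.bmap^[k] (i, (r', θ)))))
        rw [T.geo8_vel hd, T.geo8_pt hd, T.corner m, NB.h_neg_left, NB.h_sub, NB.h_add,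
          NB.h_rmul, NB.h_self, mul_zero, add_zero]
      rw [h4, abs_neg]
      exact hoffk.trans_le hwε
    · rw [T.Y.vel_rev, hinc, hv, neg_neg, sameCode_deriv T hconv hcorner hmd, sub_self, norm_zero]
      exact hε
  · rw [one_mul]
    rcases hN2 with h | h
    · exact sameCode_near T hconv hcorner hS hwε hm12.2 hz' h
    · exact sameCode_near T hconv hcorner hS hwε hm12.2 hz h

end SemiDisp

end

end Pool.Agent.MP2e716c
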