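import Pool.Agent.H.MP_2e716c_an.nb.Ang
import Pool.Agent.H.MP_2e716c_an.nb.LenA
import Pool.Agent.H.MP_2e716c_an.sg.Fold

/-! # Lines which start close to a corner leave through sides seen from it (MP_2e716c_an, sg) -/

open Set MeasureTheory Filter Topology

namespace Pool.Agent.MP2e716c.NB

noncomputable section

namespace CPoly

variable {n : ℕ} [NeZero n] (P : CPoly n)

/-- The angle under which the point with parameter `r` of side `d` is seen from the corner `m`,
measured from side `m`. -/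
def va (m d : Fin n) (r : ℝ) : ℝ :=
  InnerProductGeometry.angle (P.p (m + 1) - P.p m) (P.p d + r * P.e d - P.p m)

private theorem seen_h_swap (a b : ℂ) : h a b = -h b a := by
  simp only [h, ip, Complex.mul_re, Complex.mul_im, Complex.I_re, Complex.I_im]
  ring

private theorem seen_unit {a : ℂ} (ha : ‖a‖ = 1) : a.re * a.re + a.im * a.im = 1 := by
  have := ip_self a
  rw [ha] at this
  simpa [ip] using this

private theorem seen_h_E {a : ℂ} (ha : ‖a‖ = 1) (s t : ℝ) :
    h (a * E s) (a * E t) = Real.sin (t - s) := by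
  have h1 := seen_unit ha
  rw [← h_E]
  simp only [h, ip, Complex.mul_re, Complex.mul_im, Complex.I_re, Complex.I_im]
  linear_combination ((E s).re * (E t).im - (E s).im * (E t).re) * h1

private theorem seen_ip_E {a : ℂ} (ha : ‖a‖ = 1) (s t : ℝ) :
    ip (a * E s) (a * E t) = Real.cos (t - s) := by
  have h1 := seen_unit ha
  rw [← ip_E]
  simp only [ip, Complex.mul_re, Complex.mul_im]
  linear_combination ((E s).re * (E t).re + (E s).im * (E t).im) * h1

private theorem seen_h {a : ℂ} (ha : ‖a‖ = 1) (x y s t : ℝ) :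
    h ((x : ℂ) * (a * E s)) ((y : ℂ) * (a * E t)) = x * y * Real.sin (t - s) := by
  rw [h_rmul, seen_h_swap, h_rmul, seen_h_E ha, ← neg_sub t s, Real.sin_neg]
  ring

private theorem seen_ip {a : ℂ} (ha : ‖a‖ = 1) (x y s t : ℝ) :
    ip ((x : ℂ) * (a * E s)) ((y : ℂ) * (a * E t)) = x * y * Real.cos (t - s) := by
  rw [← seen_ip_E ha]
  simp only [ip, Complex.mul_re, Complex.mul_im, Complex.ofReal_re, Complex.ofReal_im]
  ring

private theorem seen_e_ne (m : Fin n) : P.e m ≠ 0 := by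
  intro h0
  have := P.e_norm m
  rw [h0, norm_zero] at this
  exact zero_ne_one this

private theorem seen_polar (m : Fin n) (v : ℂ) :
    v = (‖v‖ : ℂ) * (P.e m * E (Complex.arg (v / P.e m))) := by
  have h1 : ‖v / P.e m‖ = ‖v‖ := by rw [norm_div, P.e_norm, div_one]
  have h2 := Complex.norm_mul_exp_arg_mul_I (v / P.e m)
  rw [h1] at h2
  have h3 : (‖v‖ : ℂ) * E (Complex.arg (v / P.e m)) = v / P.e m := h2
  have h4 : (‖v‖ : ℂ) * (P.e m * E (Complex.arg (v / P.e m))) =
      P.e m * ((‖v‖ : ℂ) * E (Complex.arg (v / P.e m))) := by ring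
  rw [h4, h3, mul_div_cancel₀ _ (P.seen_e_ne m)]

private theorem seen_e_zero (m : Fin n) : P.e m = P.e m * E 0 := by
  simp [E]

private theorem seen_side' (m : Fin n) :
    P.p (m - 1) - P.p m = (P.len (m - 1) : ℂ) * (P.e m * E (P.ang m)) := by
  have h4 := P.side_eq (m - 1)
  rw [sub_add_cancel] at h4
  rw [← P.e_ang, mul_neg, ← h4, neg_sub]

private theorem seen_mem (m : Fin n) {v : ℂ} (hv : v ≠ 0) (h1 : 0 ≤ h (P.p (m + 1) - P.p m) v)
    (h2 : 0 ≤ h v (P.p (m - 1) - P.p m)) :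
    0 ≤ Complex.arg (v / P.e m) ∧ Complex.arg (v / P.e m) ≤ P.ang m := by
  have ha := P.ang_mem m
  have hp := P.seen_polar m v
  obtain ⟨φ, hφ⟩ : ∃ φ, φ = Complex.arg (v / P.e m) := ⟨_, rfl⟩
  obtain ⟨R, hR⟩ : ∃ R, R = ‖v‖ := ⟨_, rfl⟩
  have l1 : -Real.pi < φ := by rw [hφ]; exact Complex.neg_pi_lt_arg _
  have l2 : φ ≤ Real.pi := by rw [hφ]; exact Complex.arg_le_pi _
  have hn : 0 < R := by rw [hR]; exact norm_pos_iff.2 hv
  rw [← hφ, ← hR] at hp
  rw [← hφ]
  have s1 : 0 ≤ Real.sin φ := by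
    rw [P.side_eq, P.seen_e_zero m, hp, seen_h (P.e_norm m), sub_zero] at h1
    exact (mul_nonneg_iff_of_pos_left (mul_pos (P.len_pos m) hn)).1 h1
  have s2 : 0 ≤ Real.sin (P.ang m - φ) := by
    rw [P.seen_side', hp, seen_h (P.e_norm m)] at h2
    exact (mul_nonneg_iff_of_pos_left (mul_pos hn (P.len_pos (m - 1)))).1 h2
  constructor
  · by_contra h5
    push Not at h5
    exact absurd (Real.sin_neg_of_neg_of_neg_pi_lt h5 l1) (not_lt.2 s1)
  · by_contra h5
    push Not at h5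
    refine absurd (Real.sin_neg_of_neg_of_neg_pi_lt ?_ ?_) (not_lt.2 s2)
    · linarith
    · linarith [ha.1]

/-- A point of a side `d` other than `m - 1`, `m` is not the corner `m`, and its angle is the angle in
the frame of side `m`. -/
theorem va_spec {m d : Fin n} (h1 : d ≠ m - 1) (h2 : d ≠ m) {r : ℝ} (hr : r ∈ Icc 0 (P.len d)) :
    P.va m d r ∈ Icc 0 (P.ang m) ∧ P.p d + r * P.e d - P.p m ≠ 0 ∧
      P.p d + r * P.e d - P.p m = (‖P.p d + r * P.e d - P.p m‖ : ℂ) * (P.e m * E (P.va m d r)) := by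
  have ha := P.ang_mem m
  have hl := P.len_pos d
  have hd1 : m ≠ d + 1 := fun h => h1 (eq_sub_of_add_eq h.symm)
  obtain ⟨t, ht⟩ : ∃ t : ℝ, t = r / P.len d := ⟨_, rfl⟩
  have ht0 : 0 ≤ t := by rw [ht]; exact div_nonneg hr.1 hl.le
  have ht1 : t ≤ 1 := by rw [ht]; exact (div_le_one hl).2 hr.2
  have hre : (r : ℂ) * P.e d = (t : ℂ) * (P.p (d + 1) - P.p d) := by
    rw [P.side_eq, ← mul_assoc, ← Complex.ofReal_mul, ht, div_mul_cancel₀ _ hl.ne']
  obtain ⟨v, hv⟩ : ∃ v, v = P.p d + r * P.e d - P.p m := ⟨_, rfl⟩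
  have hvc : v = (((1 - t : ℝ)) : ℂ) * (P.p d - P.p m) + ((t : ℝ) : ℂ) * (P.p (d + 1) - P.p m) := by
    rw [hv, hre]
    push_cast
    ring
  have a1 : 0 ≤ h (P.p (m + 1) - P.p m) v := by
    rw [hvc, h_add, h_rmul, h_rmul]
    exact add_nonneg (mul_nonneg (by linarith) (P.half m d)) (mul_nonneg ht0 (P.half m (d + 1)))
  have hprev : ∀ j : Fin n, h (P.p (m - 1) - P.p m) (P.p j - P.p m) ≤ 0 := by
    intro j
    have h0 := P.half (m - 1) j
    have h3 : ip (Complex.I * (P.p (m - 1 + 1) - P.p (m - 1))) (P.p j - P.p (m - 1)) =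
        -h (P.p (m - 1) - P.p m) (P.p j - P.p m) := by
      rw [sub_add_cancel]
      simp only [h, ip, Complex.mul_re, Complex.mul_im, Complex.I_re, Complex.I_im,
        Complex.sub_re, Complex.sub_im]
      ring
    rw [h3] at h0
    linarith
  have a2 : 0 ≤ h v (P.p (m - 1) - P.p m) := by
    rw [seen_h_swap, hvc, h_add, h_rmul, h_rmul]
    have e1 := mul_nonneg (by linarith : (0 : ℝ) ≤ 1 - t) (neg_nonneg.2 (hprev d))
    have e2 := mul_nonneg ht0 (neg_nonneg.2 (hprev (d + 1)))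
    linarith
  have hv0 : v ≠ 0 := by
    intro h0
    have h3 := P.conv d m h2.symm hd1
    have h4 : P.p m - P.p d = (t : ℂ) * (P.p (d + 1) - P.p d) := by
      rw [← hre]
      have h5 : P.p d + r * P.e d - P.p m = 0 := by rw [← hv]; exact h0
      linear_combination -h5
    have h6 : h (P.p (d + 1) - P.p d) (P.p m - P.p d) = 0 := by
      rw [h4, h_rmul, h_self, mul_zero]
    have h7 : 0 < h (P.p (d + 1) - P.p d) (P.p m - P.p d) := h3
    rw [h6] at h7
    exact lt_irrefl _ h7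
  have hm := P.seen_mem m hv0 a1 a2
  have hp := P.seen_polar m v
  obtain ⟨φ, hφ⟩ : ∃ φ, φ = Complex.arg (v / P.e m) := ⟨_, rfl⟩
  rw [← hφ] at hm hp
  have hn : 0 < ‖v‖ := norm_pos_iff.2 hv0
  have hva : P.va m d r = φ := by
    unfold va InnerProductGeometry.angle
    rw [← hv]
    have e1 : inner ℝ (P.p (m + 1) - P.p m) v = P.len m * ‖v‖ * Real.cos φ := by
      have e2 := seen_ip (P.e_norm m) (P.len m) ‖v‖ 0 φ
      rw [← hp, ← P.seen_e_zero, ← P.side_eq, sub_zero] at e2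
      rw [← e2, Complex.inner]
      simp only [ip, Complex.mul_re, Complex.conj_re, Complex.conj_im]
      ring
    have e3 : ‖P.p (m + 1) - P.p m‖ = P.len m := rfl
    rw [e1, e3, mul_div_cancel_left₀ _ (mul_pos (P.len_pos m) hn).ne',
      Real.arccos_cos hm.1 (by linarith [ha.2, hm.2])]
  rw [hva, ← hv]
  exact ⟨⟨hm.1, hm.2⟩, hv0, hp⟩

theorem va_continuousOn {m d : Fin n} (h1 : d ≠ m - 1) (h2 : d ≠ m) :
    ContinuousOn (P.va m d) (Icc 0 (P.len d)) := by
  intro r hr
  have hs := (P.va_spec h1 h2 hr).2.1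
  have h0 : P.p (m + 1) - P.p m ≠ 0 := by
    have := P.len_pos m
    intro h
    have h3 : P.len m = ‖P.p (m + 1) - P.p m‖ := rfl
    rw [h3, h, norm_zero] at this
    exact lt_irrefl _ this
  have hc : ContinuousAt (fun y : ℂ × ℂ => InnerProductGeometry.angle y.1 y.2)
      (P.p (m + 1) - P.p m, P.p d + r * P.e d - P.p m) :=
    InnerProductGeometry.continuousAt_angle h0 hs
  have hg : Continuous fun r : ℝ => (P.p (m + 1) - P.p m, P.p d + (r : ℂ) * P.e d - P.p m) := by
    fun_prop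
  exact (ContinuousAt.comp (f := fun r : ℝ => (P.p (m + 1) - P.p m,
    P.p d + (r : ℂ) * P.e d - P.p m)) hc hg.continuousAt).continuousWithinAt

private theorem seen_h_next (m : Fin n) (θ : ℝ) :
    h (P.e m * E θ) (P.p (m + 1)) = h (P.e m * E θ) (P.p m) - P.len m * Real.sin θ := by
  have h1 := h_sub (P.e m * E θ) (P.p (m + 1)) (P.p m)
  have h2 := seen_h (P.e_norm m) 1 (P.len m) θ 0
  rw [Complex.ofReal_one, one_mul, one_mul, ← P.seen_e_zero, ← P.side_eq, zero_sub,
    Real.sin_neg] at h2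
  linarith

private theorem seen_h_prev (m : Fin n) (θ : ℝ) :
    h (P.e m * E θ) (P.p (m - 1)) =
      h (P.e m * E θ) (P.p m) + P.len (m - 1) * Real.sin (P.ang m - θ) := by
  have h1 := h_sub (P.e m * E θ) (P.p (m - 1)) (P.p m)
  have h2 := seen_h (P.e_norm m) 1 (P.len (m - 1)) θ (P.ang m)
  rw [Complex.ofReal_one, one_mul, one_mul, ← P.seen_side'] at h2
  linarith

private theorem seen_sin {κ a x : ℝ} (hκ : 0 < κ) (ha : a + κ < Real.pi) (h1 : κ ≤ x)
    (h2 : x ≤ a + κ) : min (Real.sin κ) (Real.sin (a + κ)) ≤ Real.sin x := by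
  rcases le_or_gt x (Real.pi / 2) with h | h
  · refine (min_le_left _ _).trans ?_
    exact Real.sin_le_sin_of_le_of_le_pi_div_two (by linarith [Real.pi_pos]) h h1
  · refine (min_le_right _ _).trans ?_
    rw [← Real.sin_pi_sub x, ← Real.sin_pi_sub (a + κ)]
    exact Real.sin_le_sin_of_le_of_le_pi_div_two (by linarith [Real.pi_pos]) (by linarith)
      (by linarith)

private theorem seen_dist (m : Fin n) : ∃ ρ > 0, ∀ d, d ≠ m - 1 → d ≠ m →
    ∀ r ∈ Icc 0 (P.len d), ρ ≤ ‖P.p d + r * P.e d - P.p m‖ := by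
  have h1 : ∀ d : Fin n, ∃ ρ : ℝ, 0 < ρ ∧ (d ≠ m - 1 → d ≠ m →
      ∀ r ∈ Icc 0 (P.len d), ρ ≤ ‖P.p d + r * P.e d - P.p m‖) := by
    intro d
    by_cases hd : d ≠ m - 1 ∧ d ≠ m
    · have hc : Continuous fun r : ℝ => ‖P.p d + (r : ℂ) * P.e d - P.p m‖ := by fun_prop
      obtain ⟨r₀, hr₀, hmin⟩ := isCompact_Icc.exists_isMinOn
        (nonempty_Icc.2 (P.len_pos d).le) hc.continuousOn
      exact ⟨‖P.p d + (r₀ : ℂ) * P.e d - P.p m‖,
        norm_pos_iff.2 (P.va_spec hd.1 hd.2 hr₀).2.1, fun _ _ r hr => hmin hr⟩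
    · exact ⟨1, one_pos, fun h2 h3 => absurd ⟨h2, h3⟩ hd⟩
  choose ρ hρ hρ' using h1
  obtain ⟨d₀, hd₀⟩ := Finite.exists_min ρ
  exact ⟨ρ d₀, hρ d₀, fun d h2 h3 r hr => (hd₀ d).trans (hρ' d h2 h3 r hr)⟩

private theorem seen_A {m : Fin n} {κ w ρ : ℝ} (hκ : 0 < κ) (hκa : P.ang m + κ < Real.pi)
    (hρ : ∀ d, d ≠ m - 1 → d ≠ m → ∀ r ∈ Icc 0 (P.len d), ρ ≤ ‖P.p d + r * P.e d - P.p m‖)
    (hw : w ≤ κ) (hw' : w ≤ ρ * min (Real.sin κ) (Real.sin (P.ang m + κ))) {a : ℝ} {L : ℂ × ℝ}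
    {d : Fin n} (hL : L.1 = P.e m * E a) (ha : a ∈ Ioo (-w) (P.ang m + w))
    (hd : |h L.1 (P.p m) - L.2| < w) (hE : P.Exit d L) (h1 : d ≠ m - 1) (h2 : d ≠ m) :
    ∃ r ∈ Icc 0 (P.len d), |P.va m d r - a| < κ := by
  have hA := P.ang_mem m
  obtain ⟨t, ht0, ht1, hX⟩ := P.ex_mem hE
  have hl := P.len_pos d
  have hr : t * P.len d ∈ Icc 0 (P.len d) :=
    ⟨(mul_pos ht0 hl).le, by nlinarith⟩
  refine ⟨t * P.len d, hr, ?_⟩
  obtain ⟨⟨v0, v1⟩, v2, v3⟩ := P.va_spec h1 h2 hr
  have hb := hρ d h1 h2 _ hr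
  have hX' : P.ex d L = P.p d + ((t * P.len d : ℝ) : ℂ) * P.e d := by
    rw [hX, P.side_eq]
    push_cast
    ring
  have hh := P.h_ex hE
  obtain ⟨x, hx⟩ : ∃ x, x = P.va m d (t * P.len d) := ⟨_, rfl⟩
  obtain ⟨R, hR⟩ : ∃ R, R = ‖P.p d + ((t * P.len d : ℝ) : ℂ) * P.e d - P.p m‖ := ⟨_, rfl⟩
  rw [← hx] at v0 v1 v3 ⊢
  rw [← hR] at hb v3
  have hR0 : 0 < R := by rw [hR]; exact norm_pos_iff.2 v2
  have e1 : R * Real.sin (x - a) = L.2 - h L.1 (P.p m) := by
    have e2 := seen_h (P.e_norm m) 1 R a x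
    rw [Complex.ofReal_one, one_mul, one_mul, ← v3, ← hL, h_sub, ← hX', hh] at e2
    exact e2.symm
  by_contra hcon
  rw [not_lt] at hcon
  have hxa : |x - a| ≤ P.ang m + κ := by
    rw [abs_le]
    constructor <;> linarith [ha.1, ha.2]
  have s1 := seen_sin hκ hκa hcon hxa
  rw [← Real.abs_sin_eq_sin_abs_of_abs_le_pi (by linarith)] at s1
  have hσ : 0 < min (Real.sin κ) (Real.sin (P.ang m + κ)) :=
    lt_min (Real.sin_pos_of_pos_of_lt_pi hκ (by linarith [hA.1]))
      (Real.sin_pos_of_pos_of_lt_pi (by linarith [hA.1]) hκa)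
  have e3 : |R * Real.sin (x - a)| < w := by
    rw [e1, abs_sub_comm]
    exact hd
  rw [abs_mul, abs_of_pos hR0] at e3
  have e4 : ρ * min (Real.sin κ) (Real.sin (P.ang m + κ)) ≤ R * |Real.sin (x - a)| :=
    mul_le_mul hb s1 hσ.le hR0.le
  linarith

/-- A path whose line starts close to the corner `m` in a direction of the corner leaves, directly or
after one reflection, through a side other than `m - 1`, `m`, at a point seen from the corner in almost
the same direction. -/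
theorem seen_of_near (m : Fin n) {ε : ℝ} (hε : 0 < ε) : ∃ w > 0, ∀ (a : ℝ) (L : ℂ × ℝ) (c : ℕ → Fin n),
    L.1 = P.e m * E a → a ∈ Ioo (-w) (P.ang m + w) → |h L.1 (P.p m) - L.2| < w →
    (∀ k, P.Exit (c k) (P.st c k L)) →
    ∃ k, c k ≠ m - 1 ∧ c k ≠ m ∧ ∃ r ∈ Icc 0 (P.len (c k)), |P.va m (c k) r - a| < ε := by
  have hA := P.ang_mem m
  obtain ⟨κ, hκ, k1, k2, k3⟩ : ∃ κ : ℝ, 0 < κ ∧ κ < P.ang m ∧ P.ang m + κ < Real.pi ∧ 3 * κ < ε := by
    refine ⟨min (min (P.ang m / 2) ((Real.pi - P.ang m) / 2)) (ε / 4), ?_, ?_, ?_, ?_⟩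
    · exact lt_min (lt_min (by linarith [hA.1]) (by linarith [hA.2])) (by linarith)
    · have h1 := min_le_left (min (P.ang m / 2) ((Real.pi - P.ang m) / 2)) (ε / 4)
      have h2 := min_le_left (P.ang m / 2) ((Real.pi - P.ang m) / 2)
      linarith [hA.1]
    · have h1 := min_le_left (min (P.ang m / 2) ((Real.pi - P.ang m) / 2)) (ε / 4)
      have h2 := min_le_right (P.ang m / 2) ((Real.pi - P.ang m) / 2)
      linarith [hA.2]
    · have h1 := min_le_right (min (P.ang m / 2) ((Real.pi - P.ang m) / 2)) (ε / 4)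
      linarith
  obtain ⟨ρ, hρ, hρ'⟩ := P.seen_dist m
  have hσ : 0 < min (Real.sin κ) (Real.sin (P.ang m + κ)) :=
    lt_min (Real.sin_pos_of_pos_of_lt_pi hκ (by linarith [hA.1]))
      (Real.sin_pos_of_pos_of_lt_pi (by linarith [hA.1]) k2)
  refine ⟨min κ (ρ * min (Real.sin κ) (Real.sin (P.ang m + κ))), lt_min hκ (mul_pos hρ hσ), ?_⟩
  obtain ⟨w, hwd⟩ : ∃ w, w = min κ (ρ * min (Real.sin κ) (Real.sin (P.ang m + κ))) := ⟨_, rfl⟩
  rw [← hwd]
  have hw1 : w ≤ κ := by rw [hwd]; exact min_le_left _ _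
  have hw2 : w ≤ ρ * min (Real.sin κ) (Real.sin (P.ang m + κ)) := by
    rw [hwd]
    exact min_le_right _ _
  have hw0 : 0 < w := by rw [hwd]; exact lt_min hκ (mul_pos hρ hσ)
  intro a L c hL ha hd hE
  by_cases c1 : c 0 = m
  · -- one reflection in side `m`
    have hE0 : P.Exit m L := by
      have := hE 0
      rwa [c1] at this
    have hst : P.st c 1 L = P.refL m L := by
      show P.refL (c 0) L = P.refL m L
      rw [c1]
    have s1 : Real.sin a < 0 := by
      have h3 := hE0.1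
      have h4 := hE0.2
      rw [hL, P.seen_h_next] at h4
      rw [hL] at h3
      have h5 : 0 < P.len m * -Real.sin a := by linarith
      have h6 := (mul_pos_iff_of_pos_left (P.len_pos m)).1 h5
      linarith
    have ha0 : a < 0 := by
      by_contra h
      rw [not_lt] at h
      exact absurd (Real.sin_nonneg_of_nonneg_of_le_pi h (by linarith [ha.2])) (not_le.2 s1)
    have hd1 : (P.st c 1 L).1 = P.e m * E (-a) := by
      rw [hst]
      show P.refD m L.1 = _
      rw [hL, P.refD_side]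
    have hp := P.h_refL_p m L
    rw [← hst] at hp
    have hdist : |h (P.st c 1 L).1 (P.p m) - (P.st c 1 L).2| < w := by
      rw [hp, abs_neg]
      exact hd
    have n1 : c 1 ≠ m := by
      have := P.succ_ne (hE 0) (hE (0 + 1))
      rw [c1] at this
      exact this
    have n2 : c 1 ≠ m - 1 := by
      intro h
      have h3 := hE 1
      rw [h] at h3
      have h4 := h3.1
      have h5 := h3.2
      rw [sub_add_cancel] at h5
      rw [hd1, P.seen_h_prev] at h4
      rw [hd1] at h5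
      have h6 : 0 < Real.sin (P.ang m - -a) :=
        Real.sin_pos_of_pos_of_lt_pi (by linarith [ha.1]) (by linarith [hA.2])
      have h7 := mul_pos (P.len_pos (m - 1)) h6
      linarith
    obtain ⟨r, hr, hr'⟩ := P.seen_A hκ k2 hρ' hw1 hw2 hd1 ⟨by linarith, by linarith [ha.1, hA.1]⟩
      hdist (hE 1) n2 n1
    refine ⟨1, n2, n1, r, hr, ?_⟩
    rw [abs_lt] at hr' ⊢
    constructor <;> linarith [hr'.1, hr'.2, ha.1]
  · by_cases c2 : c 0 = m - 1
    · -- one reflection in side `m - 1`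
      have hE0 : P.Exit (m - 1) L := by
        have := hE 0
        rwa [c2] at this
      have hst : P.st c 1 L = P.refL (m - 1) L := by
        show P.refL (c 0) L = P.refL (m - 1) L
        rw [c2]
      have s1 : Real.sin (P.ang m - a) < 0 := by
        have h3 := hE0.1
        have h4 := hE0.2
        rw [hL, P.seen_h_prev] at h3
        rw [hL, sub_add_cancel] at h4
        have h5 : 0 < P.len (m - 1) * -Real.sin (P.ang m - a) := by linarith
        have h6 := (mul_pos_iff_of_pos_left (P.len_pos (m - 1))).1 h5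
        linarith
      have ha0 : P.ang m < a := by
        by_contra h
        rw [not_lt] at h
        exact absurd (Real.sin_nonneg_of_nonneg_of_le_pi (by linarith) (by linarith [ha.1]))
          (not_le.2 s1)
      have hd1 : (P.st c 1 L).1 = P.e m * E (2 * P.ang m - a) := by
        rw [hst]
        show P.refD (m - 1) L.1 = _
        rw [hL, P.refD_side']
      have hp := P.h_refL_p1 (m - 1) L
      rw [sub_add_cancel, ← hst] at hp
      have hdist : |h (P.st c 1 L).1 (P.p m) - (P.st c 1 L).2| < w := by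
        rw [hp, abs_neg]
        exact hd
      have n1 : c 1 ≠ m - 1 := by
        have := P.succ_ne (hE 0) (hE (0 + 1))
        rw [c2] at this
        exact this
      have n2 : c 1 ≠ m := by
        intro h
        have h3 := hE 1
        rw [h] at h3
        have h4 := h3.1
        have h5 := h3.2
        rw [hd1] at h4
        rw [hd1, P.seen_h_next] at h5
        have h6 : 0 < Real.sin (2 * P.ang m - a) :=
          Real.sin_pos_of_pos_of_lt_pi (by linarith [ha.2]) (by linarith [hA.2])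
        have h7 := mul_pos (P.len_pos m) h6
        linarith
      obtain ⟨r, hr, hr'⟩ := P.seen_A hκ k2 hρ' hw1 hw2 hd1
        ⟨by linarith [ha.2], by linarith⟩ hdist (hE 1) n1 n2
      refine ⟨1, n1, n2, r, hr, ?_⟩
      rw [abs_lt] at hr' ⊢
      constructor <;> linarith [hr'.1, hr'.2, ha.2]
    · obtain ⟨r, hr, hr'⟩ := P.seen_A hκ k2 hρ' hw1 hw2 hL ha hd (hE 0) c2 c1
      exact ⟨0, c2, c1, r, hr, hr'.trans (by linarith)⟩

end CPoly

end

end Pool.Agent.MP2e716c.NB
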