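import Pool.Agent.H.MP_2e716c_an.sg.Trap
import Pool.Agent.H.MP_2e716c_an.sg.Fold

/-! # Totally trapped corner lines (MP_2e716c_an, sg) -/

open Set MeasureTheory Filter Topology

namespace Pool.Agent.MP2e716c

noncomputable section

theorem E_dist (s t : ℝ) : ‖NB.E s - NB.E t‖ ≤ |s - t| := by
  have h1 : NB.E s - NB.E t = NB.E t * (Complex.exp (Complex.I * ((s - t : ℝ) : ℂ)) - 1) := by
    have h2 : NB.E s = NB.E t * NB.E (s - t) := by rw [← NB.E_add]; congr 1; ring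
    have h3 : NB.E (s - t) = Complex.exp (Complex.I * ((s - t : ℝ) : ℂ)) := by
      rw [NB.E, mul_comm]
    rw [h2, h3]
    ring
  rw [h1, norm_mul, NB.E_norm, one_mul]
  exact (Real.norm_exp_I_mul_ofReal_sub_one_le (x := s - t)).trans (le_of_eq (Real.norm_eq_abs _))

namespace Table

variable {n : ℕ} [NeZero n] (T : Table n)

/-- The ray which starts at the corner `m` and makes the angle `φ` with the boundary piece `m` is a limit
of rays of trapped phase points. -/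
def TrapRay (S : Set (Fin n)) (m : Fin n) (φ : ℝ) : Prop :=
  ∀ ε > 0, ∃ z, T.Trapped S z ∧ |ip (Complex.I * T.vel z) (T.γ m 0 - T.pt z)| < ε ∧
    ‖T.vel z - deriv (T.γ m) 0 * Complex.exp (φ * Complex.I)‖ < ε

/-- The angle of the polygon at the corner `m`. -/
def cornerAngle (m : Fin n) : ℝ :=
  InnerProductGeometry.angle (T.γ (m + 1) 0 - T.γ m 0) (T.γ (m - 1) 0 - T.γ m 0)

/-- At some corner of two pieces of `S` a line is totally trapped: the rays from the corner with the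
angles `t`, `t + π` and `t - π` (modulo the reflections in the two sides, i.e. the distances of `t`,
`t + π`, `t - π` to the multiples of twice the angle of the corner) are limits of trapped rays. -/
def TotallyTrapped (S : Set (Fin n)) : Prop :=
  ∃ m, m - 1 ∈ S ∧ m ∈ S ∧ ∃ t : ℝ, ∀ j ∈ ({-1, 0, 1} : Set ℝ),
    T.TrapRay S m ‖((t + j * Real.pi : ℝ) : AddCircle (2 * T.cornerAngle m))‖

/-- There is a trapped phase point whose ray is `ε`-close to the ray of angle `φ` from the corner `m`. -/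
def CloseRay (S : Set (Fin n)) (m : Fin n) (ε φ : ℝ) : Prop :=
  ∃ z, T.Trapped S z ∧ |ip (Complex.I * T.vel z) (T.γ m 0 - T.pt z)| < ε ∧
    ‖T.vel z - deriv (T.γ m) 0 * NB.E φ‖ < ε

theorem closeRay_mono {S : Set (Fin n)} {m : Fin n} (hd : ‖deriv (T.γ m) 0‖ = 1) (ε ε' φ φ' : ℝ)
    (h : T.CloseRay S m ε φ) (he : ε + |φ - φ'| ≤ ε') : T.CloseRay S m ε' φ' := by
  obtain ⟨z, h1, h2, h3⟩ := h
  have h0 := abs_nonneg (φ - φ')
  refine ⟨z, h1, by linarith, ?_⟩
  have h4 : ‖NB.E φ - NB.E φ'‖ ≤ |φ - φ'| := E_dist φ φ'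
  have h5 : T.vel z - deriv (T.γ m) 0 * NB.E φ' =
      (T.vel z - deriv (T.γ m) 0 * NB.E φ) + deriv (T.γ m) 0 * (NB.E φ - NB.E φ') := by ring
  rw [h5]
  refine (norm_add_le _ _).trans_lt ?_
  rw [norm_mul, hd, one_mul]
  linarith

/-- If no corner line is totally trapped then this holds uniformly. -/
theorem exists_close {S : Set (Fin n)} (hd : ∀ m, ‖deriv (T.γ m) 0‖ = 1)
    (hA : ∀ m, 0 < T.cornerAngle m) (h : ¬ T.TotallyTrapped S) :
    ∃ ε > 0, ∀ m, m - 1 ∈ S → m ∈ S → ∀ t : ℝ, ∃ j ∈ ({-1, 0, 1} : Set ℝ),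
      ¬ T.CloseRay S m ε (NB.fold (T.cornerAngle m) (t + j * Real.pi)) := by
  have key : ∀ m, ∃ ε > 0, m - 1 ∈ S → m ∈ S → ∀ t : ℝ, ∃ j ∈ ({-1, 0, 1} : Set ℝ),
      ¬ T.CloseRay S m ε (NB.fold (T.cornerAngle m) (t + j * Real.pi)) := by
    intro m
    by_cases hm : m - 1 ∈ S ∧ m ∈ S
    · have h1 : ∀ t : ℝ, ∃ j ∈ ({-1, 0, 1} : Set ℝ), ∃ ε > 0,
          ¬ T.CloseRay S m ε (NB.fold (T.cornerAngle m) (t + j * Real.pi)) := by
        intro t
        by_contra hcon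
        push Not at hcon
        exact h ⟨m, hm.1, hm.2, t, fun j hj ε hε => hcon j hj ε hε⟩
      obtain ⟨ε, hε, h2⟩ := NB.fold_unif (hA m)
        (fun ε ε' φ φ' => T.closeRay_mono (hd m) ε ε' φ φ') h1
      exact ⟨ε, hε, fun _ _ => h2⟩
    · exact ⟨1, one_pos, fun h1 h2 => absurd ⟨h1, h2⟩ hm⟩
  choose ε hε hkey using key
  obtain ⟨m0, hm0⟩ := Finite.exists_min ε
  refine ⟨ε m0, hε m0, fun m h1 h2 t => ?_⟩
  obtain ⟨j, hj, h3⟩ := hkey m h1 h2 t
  refine ⟨j, hj, fun h4 => h3 (T.closeRay_mono (hd m) _ _ _ _ h4 ?_)⟩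
  rw [sub_self, abs_zero, add_zero]
  exact hm0 m

end Table

end

end Pool.Agent.MP2e716c
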