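import Pool.Agent.H.MP_2e716c_an.sg.TRay
import Pool.Agent.H.MP_2e716c_an.sg.Seen
import Pool.Agent.H.MP_2e716c_an.sg.Null

/-! # Trapped rays from a corner see a neutral side (MP_2e716c_an, sg) -/

open Set MeasureTheory Filter Topology

namespace Pool.Agent.MP2e716c

noncomputable section

namespace Table

variable {n : ℕ} [NeZero n] (T : Table n)

/-- The angles (measured from piece `m`) under which the points of the pieces of `S` other than
`m - 1` and `m` are seen from the corner `m`. -/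
def seen (S : Set (Fin n)) (m : Fin n) : Set ℝ :=
  {φ | ∃ d ∈ S, d ≠ m - 1 ∧ d ≠ m ∧ ∃ r ∈ Icc 0 (T.len d),
    φ = InnerProductGeometry.angle (T.γ (m + 1) 0 - T.γ m 0) (T.γ d r - T.γ m 0)}

end Table

namespace SemiDisp

variable {n : ℕ} [NeZero n] (T : SemiDisp n)

/-- The lengths of the sides. -/
private theorem TSeen_len (hconv : Convex ℝ T.P.region)
    (hcorner : ∀ i, deriv (T.P.γ (i + 1)) 0 ≠ deriv (T.P.γ i) 0) (i : Fin n) :
    (T.P.poly T.straight hconv hcorner).len i = T.P.len i := by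
  have hl := T.P.len_pos i
  show ‖T.P.γ (i + 1) 0 - T.P.γ i 0‖ = T.P.len i
  rw [Table.tab_next T.straight i, add_sub_cancel_left, norm_mul, Table.dir_norm, mul_one,
    Complex.norm_real, Real.norm_of_nonneg hl.le]

/-- The angles under which the points of a side are seen. -/
private theorem TSeen_va (hconv : Convex ℝ T.P.region)
    (hcorner : ∀ i, deriv (T.P.γ (i + 1)) 0 ≠ deriv (T.P.γ i) 0) (m d : Fin n) (r : ℝ) :
    InnerProductGeometry.angle (T.P.γ (m + 1) 0 - T.P.γ m 0) (T.P.γ d r - T.P.γ m 0) =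
      (T.P.poly T.straight hconv hcorner).va m d r := by
  rw [NB.CPoly.va, Table.tab_e, Table.straight_eq T.straight d r]
  rfl

private theorem TSeen_eq (hconv : Convex ℝ T.P.region)
    (hcorner : ∀ i, deriv (T.P.γ (i + 1)) 0 ≠ deriv (T.P.γ i) 0) (S : Set (Fin n)) (m : Fin n) :
    T.P.seen S m = ⋃ d ∈ {d : Fin n | d ∈ S ∧ d ≠ m - 1 ∧ d ≠ m},
      (T.P.poly T.straight hconv hcorner).va m d ''
        Icc 0 ((T.P.poly T.straight hconv hcorner).len d) := by
  ext φ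
  simp only [Table.seen, mem_ofPred_eq, mem_iUnion, mem_image, exists_prop]
  constructor
  · rintro ⟨d, h1, h2, h3, r, hr, h4⟩
    refine ⟨d, ⟨h1, h2, h3⟩, r, ?_, ?_⟩
    · rw [TSeen_len]
      exact hr
    · rw [h4, TSeen_va T hconv hcorner]
  · rintro ⟨d, ⟨h1, h2, h3⟩, r, hr, h4⟩
    refine ⟨d, h1, h2, h3, r, ?_, ?_⟩
    · rw [TSeen_len] at hr
      exact hr
    · rw [← h4, TSeen_va T hconv hcorner]

theorem isClosed_seen (hconv : Convex ℝ T.P.region)
    (hcorner : ∀ i, deriv (T.P.γ (i + 1)) 0 ≠ deriv (T.P.γ i) 0) (S : Set (Fin n)) (m : Fin n) :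
    IsClosed (T.P.seen S m) := by
  rw [TSeen_eq T hconv hcorner]
  refine Set.Finite.isClosed_biUnion (Set.toFinite _) fun d hd => ?_
  exact (isCompact_Icc.image_of_continuousOn
    ((T.P.poly T.straight hconv hcorner).va_continuousOn hd.2.1 hd.2.2)).isClosed

/-- The direction of a side of `S`. -/
private theorem TSeen_deriv (hconv : Convex ℝ T.P.region)
    (hcorner : ∀ i, deriv (T.P.γ (i + 1)) 0 ≠ deriv (T.P.γ i) 0) {m : Fin n} (hm : m ∉ T.disp) :
    deriv (T.Y.γ m) 0 = (T.P.poly T.straight hconv hcorner).e m := by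
  rw [Table.tab_e, (T.neutral m hm).2]
  rfl

/-- The line of a trapped orbit after `k` reflections. -/
private theorem TSeen_st (hconv : Convex ℝ T.P.region)
    (hcorner : ∀ i, deriv (T.P.γ (i + 1)) 0 ≠ deriv (T.P.γ i) 0) {S : Set (Fin n)}
    (hS : Disjoint S T.disp) {z : Fin n × ℝ × ℝ} (hz : T.Y.Trapped S z) (k : ℕ) :
    (T.P.poly T.straight hconv hcorner).st (fun q => (T.Y.bmap^[q + 1] z).1) k (T.P.line z) =
      T.P.line (T.Y.bmap^[k] z) ∧
    (T.P.poly T.straight hconv hcorner).Exit (T.Y.bmap^[k + 1] z).1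
      (T.P.line (T.Y.bmap^[k] z)) := by
  have hn : ∀ k, T.P.Next (T.Y.bmap^[k] z) (T.Y.bmap^[k + 1] z) := fun k =>
    T.next_P (T.Y.trapped_next hz k) (Set.disjoint_left.1 hS (hz k).2)
      (Set.disjoint_left.1 hS (hz (k + 1)).2)
  exact ⟨Table.path_line T.straight hconv hcorner (z := fun k => T.Y.bmap^[k] z) hn k,
    (Table.next_exit T.straight hconv hcorner (hn k)).1⟩

omit [NeZero n] in
/-- A unit vector close to another one is a small rotation of it. -/
private theorem TSeen_arg {x y : ℂ} (hx : ‖x‖ = 1) (hy : ‖y‖ = 1) :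
    x = y * NB.E (Complex.arg (x / y)) ∧ |Complex.arg (x / y)| ≤ 2 * ‖x - y‖ := by
  have hx0 : x ≠ 0 := by
    rw [← norm_ne_zero_iff, hx]
    exact one_ne_zero
  have hy0 : y ≠ 0 := by
    rw [← norm_ne_zero_iff, hy]
    exact one_ne_zero
  constructor
  · have h1 := Complex.norm_mul_exp_arg_mul_I (x / y)
    rw [norm_div, hx, hy, div_one, Complex.ofReal_one, one_mul] at h1
    rw [NB.E, h1, mul_div_cancel₀ _ hy0]
  · rw [← Complex.angle_eq_abs_arg hx0 hy0]
    refine (Complex.angle_le_mul_norm_sub hx hy).trans ?_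
    have h1 := Real.pi_le_four
    have h2 := norm_nonneg (x - y)
    nlinarith

theorem trapRay_seen (hconv : Convex ℝ T.P.region)
    (hcorner : ∀ i, deriv (T.P.γ (i + 1)) 0 ≠ deriv (T.P.γ i) 0) {S : Set (Fin n)}
    (hS : Disjoint S T.disp) {m : Fin n} (hm : m - 1 ∈ S) (hm' : m ∈ S) {φ : ℝ}
    (hφ : φ ∈ Icc 0 (T.P.cornerAngle m)) (h : T.Y.TrapRay S m φ) : φ ∈ T.P.seen S m := by
  rw [← (T.isClosed_seen hconv hcorner S m).closure_eq, Metric.mem_closure_iff]
  intro ε hε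
  obtain ⟨w, hw, hnear⟩ := (T.P.poly T.straight hconv hcorner).seen_of_near m (half_pos hε)
  obtain ⟨δ, hδ⟩ : ∃ δ, δ = min (w / 4) (ε / 8) := ⟨_, rfl⟩
  have hδ0 : 0 < δ := by
    rw [hδ]
    exact lt_min (by linarith) (by linarith)
  have hδw : δ ≤ w / 4 := by
    rw [hδ]
    exact min_le_left _ _
  have hδε : δ ≤ ε / 8 := by
    rw [hδ]
    exact min_le_right _ _
  obtain ⟨z, hz, hoff, hdir⟩ := h δ hδ0
  have hd : z.1 ∉ T.disp := Set.disjoint_left.1 hS (hz 0).2
  have hmd : m ∉ T.disp := Set.disjoint_left.1 hS hm'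
  have hv1 : ‖T.Y.vel z‖ = 1 := T.Y.vel_norm (hz 0).1
  have hy1 : ‖(T.P.poly T.straight hconv hcorner).e m * NB.E φ‖ = 1 := by
    rw [norm_mul, NB.CPoly.e_norm, NB.E_norm, one_mul]
  obtain ⟨harg1, harg2⟩ := TSeen_arg hv1 hy1
  have hdir' : ‖T.Y.vel z - (T.P.poly T.straight hconv hcorner).e m * NB.E φ‖ < δ := by
    rw [← TSeen_deriv T hconv hcorner hmd]
    exact hdir
  obtain ⟨b, hb⟩ : ∃ b, b = Complex.arg (T.Y.vel z /
      ((T.P.poly T.straight hconv hcorner).e m * NB.E φ)) := ⟨_, rfl⟩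
  rw [← hb] at harg1 harg2
  have hb2 : |b| < 2 * δ := by linarith
  have hb3 := abs_lt.1 hb2
  rw [T.cornerAngle_eq hconv hcorner m] at hφ
  have hL1 : (T.P.line z).1 = (T.P.poly T.straight hconv hcorner).e m * NB.E (φ + b) := by
    show T.P.vel z = _
    rw [T.geo8_vel hd, NB.E_add, ← mul_assoc]
    exact harg1
  have hL2 : |NB.h (T.P.line z).1 ((T.P.poly T.straight hconv hcorner).p m) - (T.P.line z).2| <
      w := by
    have h4 : ip (Complex.I * T.P.vel z) (T.P.γ m 0 - T.P.pt z) =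
        NB.h (T.P.line z).1 ((T.P.poly T.straight hconv hcorner).p m) - (T.P.line z).2 :=
      NB.h_sub _ _ _
    rw [← h4, T.geo8_vel hd, T.geo8_pt hd, ← T.corner m]
    linarith
  obtain ⟨k, hk1, hk2, r, hr, hlt⟩ := hnear (φ + b) (T.P.line z)
    (fun q => (T.Y.bmap^[q + 1] z).1) hL1 ⟨by linarith [hφ.1], by linarith [hφ.2]⟩ hL2
    (fun k => by
      rw [(TSeen_st T hconv hcorner hS hz k).1]
      exact (TSeen_st T hconv hcorner hS hz k).2)
  refine ⟨(T.P.poly T.straight hconv hcorner).va m (T.Y.bmap^[k + 1] z).1 r,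
    ⟨(T.Y.bmap^[k + 1] z).1, (hz (k + 1)).2, hk1, hk2, r, ?_, ?_⟩, ?_⟩
  · rw [TSeen_len] at hr
    exact hr
  · rw [TSeen_va T hconv hcorner]
  · rw [Real.dist_eq, abs_sub_comm]
    have h5 : (T.P.poly T.straight hconv hcorner).va m (T.Y.bmap^[k + 1] z).1 r - φ =
        ((T.P.poly T.straight hconv hcorner).va m (T.Y.bmap^[k + 1] z).1 r - (φ + b)) + b := by
      ring
    rw [h5]
    refine (abs_add_le _ _).trans_lt ?_
    linarith

theorem not_totallyTrapped (hconv : Convex ℝ T.P.region)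
    (hcorner : ∀ i, deriv (T.P.γ (i + 1)) 0 ≠ deriv (T.P.γ i) 0) {S : Set (Fin n)}
    (hS : Disjoint S T.disp)
    (h : ∀ m, m - 1 ∈ S → m ∈ S → ∀ t : ℝ, ∃ j ∈ ({-1, 0, 1} : Set ℝ),
      ‖((t + j * Real.pi : ℝ) : AddCircle (2 * T.P.cornerAngle m))‖ ∉ T.P.seen S m) :
    ¬ T.Y.TotallyTrapped S := by
  rintro ⟨m, hm, hm', t, ht⟩
  obtain ⟨j, hj, h1⟩ := h m hm hm' t
  apply h1
  have h2 := ht j hj
  rw [T.cornerAngle_Y m] at h2
  refine T.trapRay_seen hconv hcorner hS hm hm' ?_ h2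
  rw [T.cornerAngle_eq hconv hcorner m]
  exact NB.fold_mem ((T.P.poly T.straight hconv hcorner).ang_mem m).1 _

end SemiDisp

end

end Pool.Agent.MP2e716c
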