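import Pool.Agent.H.MP_2e716c_an.ASet

/-! # Trapped phase points, and their past (MP_2e716c_an, sg) -/

open Set MeasureTheory Filter Topology

namespace Pool.Agent.MP2e716c

noncomputable section

namespace Table

variable {n : ℕ} [NeZero n] (T : Table n)

/-- The forward orbit is infinite and meets only boundary pieces of `S`. -/
def Trapped (S : Set (Fin n)) (z : Fin n × ℝ × ℝ) : Prop :=
  ∀ k : ℕ, T.bmap^[k] z ∈ T.phase ∧ (T.bmap^[k] z).1 ∈ S

theorem trapped_next {S : Set (Fin n)} {z : Fin n × ℝ × ℝ} (h : T.Trapped S z) (k : ℕ) :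
    T.Next (T.bmap^[k] z) (T.bmap^[k + 1] z) := by
  have h1 := (h (k + 1)).1
  rw [Function.iterate_succ_apply'] at h1 ⊢
  exact T.next_of_bmap_mem h1

theorem trapped_iter {S : Set (Fin n)} {z : Fin n × ℝ × ℝ} (h : T.Trapped S z) (k : ℕ) :
    T.Trapped S (T.bmap^[k] z) := by
  intro j
  rw [← Function.iterate_add_apply]
  exact h (j + k)

theorem trapped_of_AS {S : Set (Fin n)} {z : Fin n × ℝ × ℝ} (h : z ∈ T.AS S) : T.Trapped S z :=
  fun k => ⟨(h k).1.1, (h k).2.1⟩

/-- Running backwards from a later point of an orbit which is trapped in both directions. -/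
theorem trapped_rev_iter {S : Set (Fin n)} {z : Fin n × ℝ × ℝ} (h : T.Trapped S z)
    (h' : T.Trapped S (rev z)) (k : ℕ) : T.Trapped S (rev (T.bmap^[k] z)) := by
  have key : ∀ k, T.bmap (rev (T.bmap^[k + 1] z)) = rev (T.bmap^[k] z) := fun k =>
    T.bmap_eq (T.next_rev (T.trapped_next h k))
  induction k with
  | zero => exact h'
  | succ k ih =>
    intro j
    cases j with
    | zero => exact ⟨T.rev_mem (h (k + 1)).1, (h (k + 1)).2⟩
    | succ j =>
      rw [Function.iterate_succ_apply, key]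
      exact ih j

theorem rev_trapped_iter {S : Set (Fin n)} {y : Fin n × ℝ × ℝ} (h : T.Trapped S y) (k : ℕ) :
    T.bmap^[k] (rev (T.bmap^[k] y)) = rev y := by
  induction k with
  | zero => rfl
  | succ k ih =>
    rw [Function.iterate_succ_apply, T.bmap_eq (T.next_rev (T.trapped_next h k))]
    exact ih

/-- Almost all points of `AS S` are trapped in both directions. -/
theorem ae_trapped_rev (S : Set (Fin n)) : ∀ᵐ z ∂T.μ, z ∈ T.AS S → T.Trapped S (rev z) := by
  have key : ∀ N : ℕ, MeasurableSet (T.bmap^[N] '' T.AS S) ∧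
      T.μ (T.bmap^[N] '' T.AS S) = T.μ (T.AS S) ∧ T.bmap^[N] '' T.AS S ⊆ T.AS S := by
    intro N
    induction N with
    | zero =>
      rw [Function.iterate_zero, image_id]
      exact ⟨T.measurableSet_AS S, rfl, subset_rfl⟩
    | succ N ih =>
      have hsub : T.bmap^[N] '' T.AS S ⊆ T.dom := fun z hz => by
        have h1 := (ih.2.2 hz 0).1
        exact ⟨_, h1⟩
      have h2 := T.mu_image ih.1 hsub
      have h3 : T.bmap^[N + 1] '' T.AS S = T.bmap '' (T.bmap^[N] '' T.AS S) := by
        rw [Function.iterate_succ', image_comp]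
      rw [h3]
      refine ⟨h2.1, h2.2.trans ih.2.1, ?_⟩
      rintro _ ⟨z, hz, rfl⟩
      exact T.AS_inv (ih.2.2 hz) 1
  have h1 : ∀ᵐ z ∂T.μ, ∀ N : ℕ, z ∈ T.AS S → z ∈ T.bmap^[N] '' T.AS S := by
    rw [ae_all_iff]
    intro N
    obtain ⟨a, b, c⟩ := key N
    have h2 : T.μ (T.AS S \ T.bmap^[N] '' T.AS S) = 0 := by
      rw [measure_sdiff c a.nullMeasurableSet (measure_ne_top _ _), b, tsub_self]
    filter_upwards [measure_eq_zero_iff_ae_notMem.1 h2] with z hz hz1
    by_contra h3
    exact hz ⟨hz1, h3⟩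
  filter_upwards [h1] with z hz hz1 k
  obtain ⟨y, hy, rfl⟩ := hz k hz1
  have hy' := T.trapped_of_AS hy
  rw [T.rev_trapped_iter hy']
  exact ⟨T.rev_mem (hy' 0).1, (hy' 0).2⟩

theorem measurableSet_trapped (S : Set (Fin n)) : MeasurableSet {z | T.Trapped S z} := by
  have h : {z | T.Trapped S z} = ⋂ k : ℕ, ((T.bmap^[k]) ⁻¹' (T.phase ∩ Prod.fst ⁻¹' S)) := by
    ext z
    simp only [Trapped, mem_ofPred_eq, mem_iInter, mem_preimage, mem_inter_iff]
  rw [h]
  exact MeasurableSet.iInter fun k => (T.measurable_bmap.iterate k)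
    (T.measurableSet_phase.inter (measurable_fst S.toFinite.measurableSet))

omit [NeZero n] in
theorem measurable_rev : Measurable (rev (n := n)) := by
  unfold rev
  fun_prop

end Table

end

end Pool.Agent.MP2e716c
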